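import Pool.Agent.X287.ST7

/-!
# Stark's and Tate's rank-one conjecture for an archimedean split place: an unconditional limit formula for `ζ'_S(g, 0)` and
# the approach to the lattice of logarithms of the units in `U^T`

`K` is any number field, `𝔪 ≠ (1)` a nonzero ideal, `R` a finite set of real embeddings of `K` (at which there is no condition),
`G` a finite abelian group, `c` a map from the ideals to `G` which is multiplicative on the ideals prime to `𝔪`, and trivial
on the ideals `(x)` with `x ≡ 1` modulo `𝔪`, `x` positive at the real embeddings outside of `R`. By Artin's reciprocity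
law the Artin symbol `c(𝔞) = (𝔞, H/K)` of an abelian extension `H/K`, unramified outside of `𝔪` and of the real places
outside of `R` is of this kind if `𝔪` is divisible by the conductor; for `G` the ray class group no reciprocity law is
needed. `S` consists of the primes dividing `𝔪` and of the archimedean places (primes can be added to `S` by enlarging `𝔪`).
Suppose that an archimedean place `𝔭` of `K` splits: `K` has a complex place or `R` is not empty.

1. The partial zeta functions `ζ_S(g, s) = ∑ N𝔞^(-s)` (`𝔞` prime to `𝔪`, `c(𝔞) = g`) have continuations to functions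
   analytic on `ℂ - {1}` and meromorphic at `1`.
2. `ζ_S(g, 0) = 0`, and for fixed `γ > π/2`, as `T → ∞`,

   `ζ'_S(g, 0) = T e^(-Λ(γ)) [exp 𝒮(T)]_g + O(1/T)`,  `𝒮(T) = ∑_v ∑_{k ≥ 1} e^{iγ k log Nv / T} / (k Γ(1 + k log Nv / T)) · c(v)^k`

   where `v` runs over the primes of `K` not dividing `𝔪`, the series converges absolutely in the group ring `ℂ[G]`, `exp` is
   the exponential of `ℂ[G]` and `[x]_g` the coefficient of `g`.
3. Let `H/K` be a Galois extension of number fields with an isomorphism `art : G → Gal(H/K)`, `𝔓` an archimedean place of `H`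
   above `𝔭`, `W` the number of roots of unity of `H`, and `U^T` the group of the `α ∈ H^×` with `|α|_𝔔 = 1` for all places
   `𝔔` of `H` which are not above `𝔭` (this is the group `U^T_{S,H}` of the problem for `|T| ≥ 2`, i.e. `|S| ≥ 3`).
   Let `V ⊆ U^T` be any subset, for example `U^T`, or the set of the `α ∈ U^T` with `H(α^{1/W})/K` abelian, as in Q1. Then
   there is `ε ∈ V` with
   `log |g(ε)|_𝔓 = -W ζ'_S(g, 0)` for all `g ∈ G` if and only if the convergent vector
   `(W T e^(-Λ) [exp 𝒮(T)]_g)_g` comes arbitrarily close to the vectors `(-log |g(ε)|_𝔓)_g`, `ε ∈ V`, for arbitrarily large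
   `T`, if and only if for an `ε ∈ V` the difference is `O(1/T)`.

Ingredients: Hecke's continuation with the gamma factors of the characters modulo `𝔪` (`Pool.Agent.Y773`, `Y772`), the
rotated law for series with complex coefficients at `s = 0`, where the gamma factors force zeros of all the characters
(`Pool.Agent.X287.CR`, `Pool.Agent.X287.ST`), and the finiteness of the integers of bounded height.
-/

set_option autoImplicit false
set_option linter.unusedSectionVars false

open Filter Topology Asymptotics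
open IsDedekindDomain NumberField

namespace Pool.Agent.Results.MP_ca56d1_nt.ArchimedeanSplitPlace

section defs
variable {K : Type} [Field K] [NumberField K] {G : Type} [CommGroup G] [Fintype G]

/-- `c` is multiplicative on the ideals prime to `𝔪`, and trivial on the ideals `(x)` with `x ≡ 1` modulo `𝔪` and
`x` positive at the real embeddings outside of `R`. -/
structure IsClassMap (𝔪 : Ideal (𝓞 K)) (R : Finset (K →+* ℝ)) (c : Ideal (𝓞 K) → G) : Prop where
  mul : ∀ I J : Ideal (𝓞 K), IsCoprime I 𝔪 → IsCoprime J 𝔪 → c (I * J) = c I * c J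
  ray : ∀ x : 𝓞 K, x ≠ 0 → x - 1 ∈ 𝔪 → (∀ σ : K →+* ℝ, σ ∉ R → 0 < σ (x : K)) → c (Ideal.span {x}) = 1

/-- `Z g` is the partial zeta function of `g`, continued to `ℂ - {1}` and meromorphic at `1`. -/
structure IsPartialZeta (𝔪 : Ideal (𝓞 K)) (c : Ideal (𝓞 K) → G) (Z : G → ℂ → ℂ) : Prop where
  sum : ∀ (g : G) (s : ℂ), 1 < s.re → HasSum (fun I : {I : Ideal (𝓞 K) // IsCoprime I 𝔪 ∧ c I = g} =>
    ((Ideal.absNorm I.1 : ℕ) : ℂ) ^ (-s)) (Z g s)
  analytic : ∀ (g : G) (s : ℂ), s ≠ 1 → AnalyticAt ℂ (Z g) s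
  mero : ∀ g : G, MeromorphicAt (Z g) 1

/-- The primes which do not divide `𝔪`. -/
abbrev Places (𝔪 : Ideal (𝓞 K)) : Type := {v : HeightOneSpectrum (𝓞 K) // IsCoprime v.asIdeal 𝔪}

open Classical in
/-- The term of the prime `v = x.1` and the exponent `k = x.2 + 1` in the coefficient of `g` in `𝒮(T)`. -/
noncomputable def term (𝔪 : Ideal (𝓞 K)) (c : Ideal (𝓞 K) → G) (γ T : ℝ) (g : G) (x : Places 𝔪 × ℕ) : ℂ :=
  if c (x.1.1.asIdeal ^ (x.2 + 1)) = g then
    Complex.exp ((γ * ((x.2 + 1) * Real.log (Ideal.absNorm x.1.1.asIdeal : ℕ) / T) : ℝ) * Complex.I) /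
    (((x.2 + 1) * Real.Gamma (1 + (x.2 + 1) * Real.log (Ideal.absNorm x.1.1.asIdeal : ℕ) / T) : ℝ) : ℂ)
  else 0

/-- The coefficient of `g` in `𝒮(T)`. -/
noncomputable def frobSum (𝔪 : Ideal (𝓞 K)) (c : Ideal (𝓞 K) → G) (γ T : ℝ) (g : G) : ℂ :=
  ∑' x, term 𝔪 c γ T g x

open Classical in
/-- The coefficient of `g` in the power `f^n` of an element `f` of the group ring `ℂ[G]`. -/
noncomputable def power (f : G → ℂ) : ℕ → G → ℂ
  | 0 => fun g => if g = 1 then 1 else 0
  | n + 1 => fun g => ∑ h, f h * power f n (h⁻¹ * g)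

/-- The coefficient of `g` in the exponential of an element `f` of the group ring `ℂ[G]`. -/
noncomputable def expCoeff (f : G → ℂ) (g : G) : ℂ := ∑' n : ℕ, power f n g / n.factorial

/-- The constant `Λ(γ) = ∫_0^∞ (e^{-t} - e^{iγt} / Γ(1 + t)) dt / t`. -/
noncomputable def Lambda (γ : ℝ) : ℂ := ∫ t in Set.Ioi (0 : ℝ),
  (Complex.exp (-(t : ℂ)) - Complex.exp ((γ * t : ℝ) * Complex.I) * ((Real.Gamma (1 + t))⁻¹ : ℝ)) / t

/-- `T e^(-Λ) [exp 𝒮(T)]_g`. -/
noncomputable def approx (𝔪 : Ideal (𝓞 K)) (c : Ideal (𝓞 K) → G) (γ T : ℝ) (g : G) : ℂ :=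
  T * Complex.exp (-Lambda γ) * expCoeff (frobSum 𝔪 c γ T) g

/-- `log |g(ε)|_𝔓`, with the normalised absolute value. -/
noncomputable def logAbs {H : Type} [Field H] [NumberField H] [Algebra K H] (art : G ≃* Gal(H/K))
    (P : InfinitePlace H) (ε : H) (g : G) : ℝ := P.mult * Real.log (P (art g ε))

/-- The elements of `H^×` with absolute value `1` at all places of `H` which are not above the place of `K`
below `P`: the units of absolute value `1` at the archimedean places which are not above this place. -/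
def UT (K : Type) [Field K] [NumberField K] {H : Type} [Field H] [NumberField H] [Algebra K H]
    (P : InfinitePlace H) : Set H :=
  {x : H | (∃ u : (𝓞 H)ˣ, ((u : 𝓞 H) : H) = x) ∧
    ∀ w : InfinitePlace H, w.comap (algebraMap K H) ≠ P.comap (algebraMap K H) → w x = 1}

end defs

section aux
open Pool.Agent.X287.ST

variable {K : Type} [Field K] [NumberField K] {G : Type} [CommGroup G] [Fintype G]

theorem power_eq (f : G → ℂ) (n : ℕ) : power f n = pw f n := by
  induction n with
  | zero => rfl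
  | succ n ih =>
    funext g
    show ∑ h, f h * power f n (h⁻¹ * g) = ∑ h, f h * pw f n (h⁻¹ * g)
    rw [ih]

theorem expCoeff_eq (f : G → ℂ) (g : G) : expCoeff f g = gexp f g := by
  unfold expCoeff gexp
  exact tsum_congr fun n => by rw [power_eq]

theorem term_eq (𝔪 : Ideal (𝓞 K)) (c : Ideal (𝓞 K) → G) (γ T : ℝ) (g : G) (x : Places 𝔪 × ℕ) :
    term 𝔪 c γ T g x = Pool.Agent.X287.ST.term 𝔪 c 0 γ T g x := by
  unfold term Pool.Agent.X287.ST.term
  split_ifs
  · rw [neg_zero, Complex.cpow_zero, one_pow, one_mul]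
  · rfl

theorem frobSum_eq (𝔪 : Ideal (𝓞 K)) (c : Ideal (𝓞 K) → G) (γ T : ℝ) :
    frobSum 𝔪 c γ T = Sg 𝔪 c 0 γ T := by
  funext g
  exact tsum_congr fun x => term_eq 𝔪 c γ T g x

theorem approx_eq (𝔪 : Ideal (𝓞 K)) (c : Ideal (𝓞 K) → G) (γ T : ℝ) (g : G) :
    approx 𝔪 c γ T g = sc (Pool.Agent.W187.UR.Lam γ) (1 : ℤ) T * gexp (Sg 𝔪 c 0 γ T) g := by
  unfold approx sc
  rw [zpow_one, frobSum_eq, expCoeff_eq]
  rfl

/-- there are only finitely many elements of `U^T` with bounded logarithms -/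
theorem finite_UT {H : Type} [Field H] [NumberField H] [Algebra K H] [IsGalois K H]
    (art : G ≃* Gal(H/K)) (P : InfinitePlace H) (B : ℝ) :
    {ε : H | ε ∈ UT K P ∧ ∀ g, |logAbs art P ε g| ≤ B}.Finite := by
  refine (NumberField.Embeddings.finite_of_norm_le H ℂ (Real.exp |B|)).subset ?_
  rintro ε ⟨⟨⟨u, rfl⟩, h2⟩, h3⟩
  refine ⟨(u : 𝓞 H).isIntegral_coe, fun φ => ?_⟩
  have hw : ∀ w : InfinitePlace H, w ((u : 𝓞 H) : H) ≤ Real.exp |B| := by
    intro w
    by_cases hP : w.comap (algebraMap K H) = P.comap (algebraMap K H)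
    · obtain ⟨σ, hσ⟩ := InfinitePlace.exists_smul_eq_of_comap_eq hP.symm
      have h4 := h3 (art.symm σ.symm)
      unfold logAbs at h4
      rw [MulEquiv.apply_symm_apply] at h4
      have h5 : w ((u : 𝓞 H) : H) = P (σ.symm ((u : 𝓞 H) : H)) := by
        rw [← hσ]
        rfl
      rw [← h5] at h4
      have hpos : 0 < w ((u : 𝓞 H) : H) := InfinitePlace.pos_iff.2 (by
        simp)
      have hm : (1 : ℝ) ≤ P.mult := by
        have := P.mult_pos
        exact_mod_cast this
      rw [abs_mul, abs_of_nonneg (by linarith : (0 : ℝ) ≤ P.mult)] at h4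
      have h6 : |Real.log (w ((u : 𝓞 H) : H))| ≤ |B| := by
        have h7 : |Real.log (w ((u : 𝓞 H) : H))| ≤ P.mult * |Real.log (w ((u : 𝓞 H) : H))| :=
          le_mul_of_one_le_left (abs_nonneg _) hm
        exact (h7.trans h4).trans (le_abs_self B)
      calc w ((u : 𝓞 H) : H) = Real.exp (Real.log (w ((u : 𝓞 H) : H))) := (Real.exp_log hpos).symm
        _ ≤ _ := Real.exp_le_exp.2 ((le_abs_self _).trans h6)
    · rw [h2 w hP]
      exact Real.one_le_exp (abs_nonneg _)
  have h8 := hw (InfinitePlace.mk φ)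
  rwa [InfinitePlace.apply] at h8

end aux

open Pool.Agent.X287.ST in
/-- **Stark's conjecture in Tate's form, archimedean split place**: limit formula and approach to the lattice. -/
theorem result (K : Type) [Field K] [NumberField K] (𝔪 : Ideal (𝓞 K)) (h0 : 𝔪 ≠ ⊥) (h1 : 𝔪 ≠ ⊤)
    (R : Finset (K →+* ℝ)) (hsplit : R.Nonempty ∨ ∃ w : InfinitePlace K, w.IsComplex)
    (G : Type) [CommGroup G] [Fintype G] (c : Ideal (𝓞 K) → G) (hc : IsClassMap 𝔪 R c)
    (γ : ℝ) (hγ : Real.pi / 2 < γ) :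
    -- 1. the partial zeta functions exist
    (∃ Z : G → ℂ → ℂ, IsPartialZeta 𝔪 c Z) ∧
    -- absolute convergence of the sums
    (∀ (T : ℝ) (g : G), 0 < T → Summable fun x => ‖term 𝔪 c γ T g x‖) ∧
    ∀ Z : G → ℂ → ℂ, IsPartialZeta 𝔪 c Z →
      -- 2. the limit formula
      (∀ g, Z g 0 = 0 ∧ (fun T : ℝ => approx 𝔪 c γ T g - deriv (Z g) 0) =O[atTop] (fun T : ℝ => 1 / T)) ∧
      -- 3. Stark units
      (∀ (H : Type) [Field H] [NumberField H] [Algebra K H] [IsGalois K H] (art : G ≃* Gal(H/K))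
        (P : InfinitePlace H) (V : Set H), V ⊆ UT K P →
        ((∃ ε ∈ V, ∀ g, (logAbs art P ε g : ℂ) = -(Units.torsionOrder H : ℂ) * deriv (Z g) 0) ↔
          ∀ δ > 0, ∀ T₀ : ℝ, ∃ T ≥ T₀, ∃ ε ∈ V, ∀ g,
            ‖(Units.torsionOrder H : ℂ) * approx 𝔪 c γ T g + logAbs art P ε g‖ < δ) ∧
        ((∃ ε ∈ V, ∀ g, (logAbs art P ε g : ℂ) = -(Units.torsionOrder H : ℂ) * deriv (Z g) 0) ↔
          ∃ ε ∈ V, ∀ g, (fun T : ℝ => (Units.torsionOrder H : ℂ) * approx 𝔪 c γ T g +
            logAbs art P ε g) =O[atTop] (fun T : ℝ => 1 / T))) := by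
  classical
  have hc' : IsClassMapR 𝔪 R c := ⟨hc.mul, hc.ray⟩
  have hr : 1 ≤ R.card + InfinitePlace.nrComplexPlaces K := by
    rcases hsplit with h | ⟨w, hw⟩
    · have := h.card_pos
      omega
    · have : 0 < InfinitePlace.nrComplexPlaces K := by
        unfold InfinitePlace.nrComplexPlaces
        exact Fintype.card_pos_iff.2 ⟨⟨w, hw⟩⟩
      omega
  refine ⟨?_, fun T g hT => ?_, fun Z hZ => ?_⟩
  · obtain ⟨Z, hZ, -⟩ := exists_PZ_ord h1 h0 hc'
    exact ⟨Z, hZ.sum, hZ.an, hZ.mer⟩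
  · have h := term_summable hc'.toClass (s₀ := 0) (by simp) γ hT g
    refine h.congr fun x => ?_
    rw [term_eq]
  have hZ' : IsPZ 𝔪 c Z := ⟨hZ.sum, hZ.analytic, hZ.mero⟩
  obtain ⟨a, ha⟩ := PZ_ord h1 h0 hc' hZ'
  -- the limit of `Z g s / s`
  have hone : ∀ g, ∃ b : ℂ, Tendsto (fun s : ℂ => Z g s / s) (𝓝[≠] 0) (𝓝 b) := by
    intro g
    obtain ⟨k, hk⟩ := Nat.exists_eq_add_of_le hr
    have h2 : Tendsto (fun s : ℂ => s ^ k) (𝓝[≠] 0) (𝓝 ((0 : ℂ) ^ k)) :=
      (continuous_pow k).continuousAt.tendsto.mono_left nhdsWithin_le_nhds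
    refine ⟨_, ((ha g).mul h2).congr' ?_⟩
    filter_upwards [self_mem_nhdsWithin] with s hs
    have hs0 : s ≠ 0 := hs
    rw [hk, pow_add, pow_one]
    field_simp
  choose b hb using hone
  have hder : ∀ g, Z g 0 = 0 ∧ deriv (Z g) 0 = b g := fun g =>
    deriv_one (hZ.analytic g 0 (by norm_num)) (hb g)
  have hrate : ∀ g, (fun T : ℝ => approx 𝔪 c γ T g - deriv (Z g) 0) =O[atTop] (fun T : ℝ => 1 / T) := by
    intro g
    have h3 := lead_rate h1 hc'.toClass hZ' (s₀ := 0) (by simp) hγ 1 b (fun g => by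
      simp only [sub_zero, zpow_one]
      exact hb g) g
    refine h3.congr_left fun T => ?_
    rw [approx_eq, (hder g).2]
  have h0T : Tendsto (fun T : ℝ => 1 / T) atTop (𝓝 (0 : ℝ)) :=
    tendsto_const_nhds.div_atTop tendsto_id
  refine ⟨fun g => ⟨(hder g).1, hrate g⟩, fun H _ _ _ _ art P V hV => ?_⟩
  set W : ℂ := (Units.torsionOrder H : ℂ) with hW
  have hlim : ∀ g, (fun T : ℝ => W * approx 𝔪 c γ T g - W * deriv (Z g) 0) =O[atTop]
      (fun T : ℝ => 1 / T) := by
    intro g
    refine ((hrate g).const_mul_left W).congr_left fun T => ?_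
    ring
  have hgood : (∃ ε ∈ V, ∀ g, (logAbs art P ε g : ℂ) = -W * deriv (Z g) 0) ↔
      ∃ ε ∈ V, ∀ g, (fun T : ℝ => W * approx 𝔪 c γ T g + logAbs art P ε g) =O[atTop]
        (fun T : ℝ => 1 / T) := by
    refine exists_congr fun ε => and_congr_right fun hε => forall_congr' fun g => ?_
    constructor
    · intro h
      refine (hlim g).congr_left fun T => ?_
      rw [h]
      ring
    · intro h
      have h4 : Tendsto (fun _ : ℝ => W * deriv (Z g) 0 + logAbs art P ε g) atTop (𝓝 0) := by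
        have h5 := (h.sub (hlim g)).trans_tendsto h0T
        refine h5.congr fun T => ?_
        ring
      have h6 := tendsto_nhds_unique h4 tendsto_const_nhds
      linear_combination -h6
  refine ⟨⟨fun h => ?_, fun h => ?_⟩, hgood⟩
  · obtain ⟨ε, hε, h2⟩ := hgood.1 h
    intro δ hδ T₀
    have h3 : ∀ᶠ T : ℝ in atTop, ∀ g, ‖W * approx 𝔪 c γ T g + logAbs art P ε g‖ < δ := by
      rw [eventually_all]
      intro g
      have h4 := ((h2 g).trans_tendsto h0T).norm
      rw [norm_zero] at h4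
      exact h4.eventually_lt_const hδ
    obtain ⟨T, hT1, hT2⟩ := (h3.and (eventually_ge_atTop T₀)).exists
    exact ⟨T, hT2, ε, hε, hT1⟩
  · -- approach
    have hev : ∀ δ : ℝ, 0 < δ → ∃ T₀ : ℝ, ∀ T ≥ T₀, ∀ g, ‖W * approx 𝔪 c γ T g - W * deriv (Z g) 0‖ < δ := by
      intro δ hδ
      have h3 : ∀ᶠ T : ℝ in atTop, ∀ g, ‖W * approx 𝔪 c γ T g - W * deriv (Z g) 0‖ < δ := by
        rw [eventually_all]
        intro g
        have h4 := ((hlim g).trans_tendsto h0T).norm
        rw [norm_zero] at h4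
        exact h4.eventually_lt_const hδ
      exact eventually_atTop.1 h3
    have hclose : ∀ δ : ℝ, 0 < δ → ∃ ε ∈ V, ∀ g, ‖W * deriv (Z g) 0 + logAbs art P ε g‖ < δ := by
      intro δ hδ
      obtain ⟨T₀, hT₀⟩ := hev (δ / 2) (by positivity)
      obtain ⟨T, hT, ε, hε, h5⟩ := h (δ / 2) (by positivity) T₀
      refine ⟨ε, hε, fun g => ?_⟩
      have h6 : W * deriv (Z g) 0 + logAbs art P ε g = (W * approx 𝔪 c γ T g + logAbs art P ε g) -
          (W * approx 𝔪 c γ T g - W * deriv (Z g) 0) := by ring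
      rw [h6]
      calc _ ≤ ‖W * approx 𝔪 c γ T g + logAbs art P ε g‖ +
            ‖W * approx 𝔪 c γ T g - W * deriv (Z g) 0‖ := norm_sub_le _ _
        _ < δ := by
          have := h5 g
          have := hT₀ T hT g
          linarith
    -- a bounded set of units
    set B : ℝ := ∑ g, ‖W * deriv (Z g) 0‖ + 1 with hB
    set A : Set H := {ε : H | ε ∈ UT K P ∧ ∀ g, |logAbs art P ε g| ≤ B} with hA
    have hAf : A.Finite := finite_UT art P B
    choose! u huV hu using fun n : ℕ => hclose (1 / ((n : ℝ) + 1)) (by positivity)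
    have huA : ∀ n, u n ∈ A := by
      intro n
      refine ⟨hV (huV n), fun g => ?_⟩
      have h7 : ‖(logAbs art P (u n) g : ℂ)‖ ≤ ‖W * deriv (Z g) 0 + logAbs art P (u n) g‖ +
          ‖W * deriv (Z g) 0‖ := by
        calc ‖(logAbs art P (u n) g : ℂ)‖ = ‖(W * deriv (Z g) 0 + logAbs art P (u n) g) -
              W * deriv (Z g) 0‖ := by congr 1; ring
          _ ≤ _ := norm_sub_le _ _
      rw [Complex.norm_real, Real.norm_eq_abs] at h7
      have h8 : (1 : ℝ) / ((n : ℝ) + 1) ≤ 1 := by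
        rw [div_le_one (by positivity)]
        have : (0 : ℝ) ≤ n := Nat.cast_nonneg n
        linarith
      have h9 : ‖W * deriv (Z g) 0‖ ≤ ∑ g, ‖W * deriv (Z g) 0‖ :=
        Finset.single_le_sum (f := fun g => ‖W * deriv (Z g) 0‖) (fun _ _ => norm_nonneg _)
          (Finset.mem_univ g)
      have := (hu n g).le
      rw [hB]
      linarith
    -- one of them occurs infinitely often
    have := hAf.to_subtype
    obtain ⟨ε, hε⟩ := Finite.exists_infinite_fiber (fun n : ℕ => (⟨u n, huA n⟩ : A))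
    have hinf : (Set.preimage (fun n : ℕ => (⟨u n, huA n⟩ : A)) {ε}).Infinite :=
      Set.infinite_coe_iff.1 hε
    refine ⟨ε.1, ?_, fun g => ?_⟩
    · obtain ⟨n, hn⟩ := hinf.nonempty
      have : (⟨u n, huA n⟩ : A) = ε := hn
      rw [← this]
      exact huV n
    · have h10 : ‖W * deriv (Z g) 0 + logAbs art P ε.1 g‖ = 0 := by
        by_contra hne
        have hpos : 0 < ‖W * deriv (Z g) 0 + logAbs art P ε.1 g‖ :=
          lt_of_le_of_ne (norm_nonneg _) (Ne.symm hne)
        obtain ⟨N, hN⟩ := exists_nat_one_div_lt hpos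
        obtain ⟨n, hn, hNn⟩ := hinf.exists_gt N
        have h11 : (⟨u n, huA n⟩ : A) = ε := hn
        have h12 := hu n g
        have h13 : u n = ε.1 := congrArg Subtype.val h11
        rw [h13] at h12
        have h14 : (1 : ℝ) / ((n : ℝ) + 1) ≤ 1 / ((N : ℝ) + 1) := by
          have : (N : ℝ) < n := by exact_mod_cast hNn
          gcongr
        linarith
      rw [norm_eq_zero] at h10
      linear_combination h10

end Pool.Agent.Results.MP_ca56d1_nt.ArchimedeanSplitPlace
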