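import Pool.Agent.X287.STG

/-!
# The rank one abelian Stark conjecture, archimedean `𝔭`: from larger sets `S` to smaller ones

`K` is any number field, `ι` an embedding of `K` into `ℂ` (its place is `𝔭`, real or complex) and `σ₂` a real embedding of `K` different
from `ι`. A datum (structure `Datum`) consists of an ideal `𝔪 ≠ (0), (1)` (the set `S` consists of the prime divisors of `𝔪` and of the
archimedean places), a class map `c` modulo `𝔪` and the real places other than `𝔭`, with values in a finite abelian group `G`, the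
partial zeta functions `ζ(s, g)`, `g ∈ G`, and a Galois extension `H/K` with group `G` (`art : G ≅ Gal(H/K)`) and an embedding `τ` above
`ι` (its place is `𝔓`), real if `ι` is real, such that the class of `(y)`, `y ≡ 1` modulo `𝔪`, `σ₂(y) < 0`, `y` positive at the other
real places except `𝔭`, acts as the complex conjugation above `σ₂`: for example any abelian extension `H/K` in which `𝔭` splits
completely, with an ideal `𝔪` which is divisible by the finite part of the conductor, and the Artin symbols.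

Q1 for the datum (`Datum.Stark`): there is a unit `ε` of `H`, with absolute value `1` at all the archimedean places which do not lie above
`𝔭`, such that `log |g(ε)|_𝔓 = - W ζ'(0, g)` for all `g ∈ G`, and `ε` has a `W`-th root in an abelian extension of `K`; `W` is the
number of the roots of unity in `H`.

THEOREM. Suppose that for all classes `g, h ∈ G` there are primes `v₁ ≠ v₂`, prime to `𝔪`, with `c(v₁) = g`, `c(v₂) = h` and data for the
ideals `𝔪 v₁`, `𝔪 v₂` and `𝔪 v₁ v₂` (with fields `H ⊆ H₁, H₂ ⊆ H₁₂`) for which Q1 is true, such that the degrees `[H₁ : H]`, `[H₂ : H]`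
are even, `Gal(H₁₂/K)` is mapped onto the fibre product of `Gal(H₁/K)` and `Gal(H₂/K)` over `Gal(H/K)` (structure `Square`) and, if `𝔭`
is complex, the only roots of unity in `H₁₂` are `1` and `-1`. Then Q1 is true for `𝔪` and `H`: all of it.

If all the real places of `K` are `𝔭` and `K` has another archimedean place, then both sides of Q1 are trivial; so for archimedean `𝔭`
and `K` different from `ℚ` and the imaginary quadratic fields (where Q1 is known) there is always `σ₂` in the nontrivial cases.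

Proof. 1. The norm `w_g` of the unit for `𝔪 v`, `c(v) = g`, has the values `- 2 ζ'(0, A) + 2 ζ'(0, A g⁻¹)`; it is a square in `H₁` by the
square root condition, and by comparing two primes of the same class (`i ∉ H₁₂`) it is a square in `H`: `w_g = b_g²`.
2. `b_g^{1 - h⁻¹} = b_h^{1 - g⁻¹}`, without a sign: both are the norm, in different order, of the root of the unit for `𝔪 v₁ v₂` in an
abelian extension; the signs of the square roots in `H₁` and `H₂` do not matter as the degrees are even. 3. Let `ρ` be the complex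
conjugation above `σ₂`. As `ζ'(0, Aρ) = - ζ'(0, A)` and `|b_g|² > 0` above `σ₂` we have `b_g^ρ = b_g⁻¹`. Then `ε = b_ρ` has the right
absolute values and `ε^{1 - g⁻¹} = b_g^{1 - ρ} = b_g²` by 2.; `H(√ε)/K` is abelian by 2. and Kummer theory.
-/

set_option autoImplicit false
set_option linter.unusedSectionVars false

open Filter Topology
open IsDedekindDomain NumberField

namespace Pool.Agent.Results.MP_ca56d1_nt.LargerSets

section defs

/-- `c` is multiplicative on the ideals prime to `𝔪`, and trivial on the ideals `(x)` with `x ≡ 1` modulo `𝔪` such that `x` is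
positive at all the real embeddings different from `ι`. -/
structure IsClassMap {K : Type} [Field K] [NumberField K] {G : Type} [CommGroup G] (𝔪 : Ideal (𝓞 K)) (ι : K →+* ℂ)
    (c : Ideal (𝓞 K) → G) : Prop where
  mul : ∀ I J : Ideal (𝓞 K), IsCoprime I 𝔪 → IsCoprime J 𝔪 → c (I * J) = c I * c J
  ray : ∀ x : 𝓞 K, x ≠ 0 → x - 1 ∈ 𝔪 → (∀ σ : K →+* ℝ, Complex.ofRealHom.comp σ ≠ ι → 0 < σ (x : K)) →
    c (Ideal.span {x}) = 1

/-- `Z A` is the partial zeta function of `A`, continued to `ℂ - {1}` and meromorphic at `1`. -/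
structure IsPartialZeta {K : Type} [Field K] [NumberField K] {G : Type} (𝔪 : Ideal (𝓞 K)) (c : Ideal (𝓞 K) → G)
    (Z : G → ℂ → ℂ) : Prop where
  sum : ∀ (A : G) (s : ℂ), 1 < s.re → HasSum (fun I : {I : Ideal (𝓞 K) // IsCoprime I 𝔪 ∧ c I = A} =>
    ((Ideal.absNorm I.1 : ℕ) : ℂ) ^ (-s)) (Z A s)
  analytic : ∀ (A : G) (s : ℂ), s ≠ 1 → AnalyticAt ℂ (Z A) s
  mero : ∀ A : G, MeromorphicAt (Z A) 1

/-- An ideal `𝔪 ≠ (0), (1)`, with a class map `c` and the partial zeta functions `Z A`. -/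
structure ClassDatum (K : Type) [Field K] [NumberField K] (ι : K →+* ℂ) where
  𝔪 : Ideal (𝓞 K)
  ne_bot : 𝔪 ≠ ⊥
  ne_top : 𝔪 ≠ ⊤
  G : Type
  [commGroup : CommGroup G]
  [fintype : Fintype G]
  c : Ideal (𝓞 K) → G
  isClassMap : IsClassMap 𝔪 ι c
  Z : G → ℂ → ℂ
  isPartialZeta : IsPartialZeta 𝔪 c Z

attribute [instance] ClassDatum.commGroup ClassDatum.fintype

/-- `y ≠ 0`, `y ≡ 1` modulo `𝔪`, `σ₂(y) < 0`, and `y` is positive at the other real embeddings different from `ι`. -/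
structure NegativeAt {K : Type} [Field K] [NumberField K] (𝔪 : Ideal (𝓞 K)) (ι : K →+* ℂ) (σ₂ : K →+* ℝ) (y : 𝓞 K) :
    Prop where
  ne : y ≠ 0
  congr : y - 1 ∈ 𝔪
  neg : σ₂ (y : K) < 0
  pos : ∀ σ : K →+* ℝ, σ ≠ σ₂ → Complex.ofRealHom.comp σ ≠ ι → 0 < σ (y : K)

/-- The class of such a `(y)` acts as the complex conjugation above `σ₂`. -/
def ActsAsConjugation {K : Type} [Field K] [NumberField K] {G : Type} [CommGroup G] {H : Type} [Field H] [Algebra K H]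
    (𝔪 : Ideal (𝓞 K)) (ι : K →+* ℂ) (σ₂ : K →+* ℝ) (c : Ideal (𝓞 K) → G) (art : G ≃* Gal(H/K)) : Prop :=
  ∀ y : 𝓞 K, NegativeAt 𝔪 ι σ₂ y → ∀ φ : H →+* ℂ,
    φ.comp (algebraMap K H) = Complex.ofRealHom.comp σ₂ → ∀ x, φ (art (c (Ideal.span {y})) x) = starRingEnd ℂ (φ x)

/-- In addition a Galois extension `H/K` whose Galois group is identified with `G` by `art`, and an embedding `τ` of `H` above
`ι` which is real if `ι` is real; the complex conjugation above `σ₂` is given by the class map. -/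
structure Datum (K : Type) [Field K] [NumberField K] (ι : K →+* ℂ) (σ₂ : K →+* ℝ) extends ClassDatum K ι where
  H : Type
  [field : Field H]
  [numberField : NumberField H]
  [algebra : Algebra K H]
  [galois : IsGalois K H]
  art : G ≃* Gal(H/K)
  τ : H →+* ℂ
  above : τ.comp (algebraMap K H) = ι
  split : ComplexEmbedding.IsReal ι → ComplexEmbedding.IsReal τ
  conj : ActsAsConjugation 𝔪 ι σ₂ c art

attribute [instance] Datum.field Datum.numberField Datum.algebra Datum.galois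

/-- `log |x|` for the normalised absolute value of the place of `τ`: `|x| = |τ x|` if `τ` is real, `|τ x|²` if not. -/
noncomputable def logAbs {H : Type} [Field H] (τ : H →+* ℂ) (x : H) : ℝ := by
  classical
  exact (if ComplexEmbedding.IsReal τ then 1 else 2) * Real.log ‖τ x‖

/-- `u` has an `e`-th root in an abelian extension `M` of `K` (which contains `H`). -/
def HasAbelianRoot (K : Type) [Field K] [NumberField K] {H : Type} [Field H] [NumberField H] [Algebra K H] (e : ℕ) (u : H) :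
    Prop :=
  ∃ (M : Type) (_ : Field M) (_ : NumberField M) (_ : Algebra H M) (_ : Algebra K M)
    (_ : IsScalarTower K H M) (_ : IsGalois K M) (α : M), (∀ a b : Gal(M/K), a * b = b * a) ∧
      α ^ e = algebraMap H M u

/-- The unit `ε` has the properties in Q1; `W = torsionOrder H` is the number of the roots of unity in `H`. -/
structure IsStarkUnit {K : Type} [Field K] [NumberField K] {G : Type} [CommGroup G] {H : Type} [Field H]
    [NumberField H] [Algebra K H] (ι : K →+* ℂ) (Z : G → ℂ → ℂ) (art : G ≃* Gal(H/K)) (τ : H →+* ℂ)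
    (ε : (𝓞 H)ˣ) : Prop where
  value : ∀ g, ((logAbs τ (art g ((ε : 𝓞 H) : H)) : ℝ) : ℂ) = -((Units.torsionOrder H : ℕ) : ℂ) * deriv (Z g) 0
  circle : ∀ φ : H →+* ℂ, φ.comp (algebraMap K H) ≠ ι → φ.comp (algebraMap K H) ≠ ComplexEmbedding.conjugate ι →
    ‖φ ((ε : 𝓞 H) : H)‖ = 1
  abelian : HasAbelianRoot K (Units.torsionOrder H) ((ε : 𝓞 H) : H)

variable {K : Type} [Field K] [NumberField K] {ι : K →+* ℂ} {σ₂ : K →+* ℝ}

/-- Q1 for the datum. -/
def Datum.Stark (D : Datum K ι σ₂) : Prop := ∃ ε : (𝓞 D.H)ˣ, IsStarkUnit ι D.Z D.art D.τ ε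

/-- `𝔪' = 𝔪 v` with a prime `v ∤ 𝔪`, the class map `c'` refines `c`, and `emb : H → H'` is compatible with the Galois groups and the
embeddings. -/
structure IsLayer {G G' H H' : Type} [CommGroup G] [CommGroup G'] [Field H] [Algebra K H] [Field H'] [Algebra K H']
    (𝔪 𝔪' : Ideal (𝓞 K)) (c : Ideal (𝓞 K) → G) (c' : Ideal (𝓞 K) → G') (art : G ≃* Gal(H/K)) (art' : G' ≃* Gal(H'/K))
    (τ : H →+* ℂ) (τ' : H' →+* ℂ) (v : HeightOneSpectrum (𝓞 K)) (π : G' →* G) (emb : H →ₐ[K] H') : Prop where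
  prime : IsCoprime v.asIdeal 𝔪
  modulus : 𝔪' = 𝔪 * v.asIdeal
  surjective : Function.Surjective π
  classes : ∀ I, IsCoprime I 𝔪' → π (c' I) = c I
  restrict : ∀ (g' : G') (x : H), art' g' (emb x) = emb (art (π g') x)
  above : ∀ x, τ' (emb x) = τ x

/-- The ideal of `D'` is `𝔪 v` with a prime `v ∤ 𝔪`, its class map refines the class map of `D`, and `H ⊆ H'`. -/
structure Layer (D D' : Datum K ι σ₂) where
  v : HeightOneSpectrum (𝓞 K)
  π : D'.G →* D.G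
  emb : D.H →ₐ[K] D'.H
  isLayer : IsLayer D.𝔪 D'.𝔪 D.c D'.c D.art D'.art D.τ D'.τ v π emb

/-- The degree of `H'` over `H` is even. -/
def Layer.EvenDegree {D D' : Datum K ι σ₂} (L : Layer D D') : Prop := Even (Nat.card L.π.ker)

/-- `G₁₂` is mapped onto the fibre product of `G₁` and `G₂` over `G`. -/
def OntoFibreProduct {G G₁ G₂ G₁₂ : Type} [CommGroup G] [CommGroup G₁] [CommGroup G₂] [CommGroup G₁₂] (p₁ : G₁ →* G)
    (p₂ : G₂ →* G) (π₁ : G₁₂ →* G₁) (π₂ : G₁₂ →* G₂) : Prop :=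
  ∀ g₁ g₂, p₁ g₁ = p₂ g₂ → ∃ g, π₁ g = g₁ ∧ π₂ g = g₂

/-- The ideals `𝔪`, `𝔪 v₁`, `𝔪 v₂` and `𝔪 v₁ v₂`; the degrees of `H₁` and `H₂` over `H` are even, the Galois group of `H₁₂` is mapped
onto the fibre product of the Galois groups of `H₁` and `H₂`, and if `ι` is not real then `H₁₂` has two roots of unity. -/
structure Square (D D₁ D₂ D₁₂ : Datum K ι σ₂) where
  L₁ : Layer D D₁
  L₂ : Layer D D₂
  M₁ : Layer D₁ D₁₂
  M₂ : Layer D₂ D₁₂
  prime₁ : M₂.v = L₁.v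
  prime₂ : M₁.v = L₂.v
  even₁ : L₁.EvenDegree
  even₂ : L₂.EvenDegree
  fibre : OntoFibreProduct L₁.π L₂.π M₁.π M₂.π
  roots : ComplexEmbedding.IsReal ι ∨ Units.torsionOrder D₁₂.H = 2

end defs

section aux
open Pool.Agent.X287.ST

variable {K : Type} [Field K] [NumberField K] {ι : K →+* ℂ} {σ₂ : K →+* ℝ}

section
variable {D D' : Datum K ι σ₂} (L : Layer D D')

theorem Layer.prime : IsCoprime L.v.asIdeal D.𝔪 := L.isLayer.prime
theorem Layer.modulus : D'.𝔪 = D.𝔪 * L.v.asIdeal := L.isLayer.modulus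
theorem Layer.surjective : Function.Surjective L.π := L.isLayer.surjective
theorem Layer.classes : ∀ I, IsCoprime I D'.𝔪 → L.π (D'.c I) = D.c I := L.isLayer.classes
theorem Layer.restrict (g' : D'.G) (x : D.H) : D'.art g' (L.emb x) = L.emb (D.art (L.π g') x) :=
  L.isLayer.restrict g' x
theorem Layer.above (x : D.H) : D'.τ (L.emb x) = D.τ x := L.isLayer.above x

end

/-- the numbers `ζ'(0, A)` -/
noncomputable def dd (D : Datum K ι σ₂) (A : D.G) : ℝ := (deriv (D.Z A) 0).re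

open Classical in
/-- the degree of `𝔭` -/
noncomputable def mu (ι : K →+* ℂ) : ℕ := if ComplexEmbedding.IsReal ι then 1 else 2

theorem mu_pos (ι : K →+* ℂ) : 0 < mu ι := by
  unfold mu
  split_ifs <;> norm_num

/-- the unit -/
structure IsU (D : Datum K ι σ₂) (u : D.H) : Prop where
  val : ∀ A, ‖D.τ (D.art A u)‖ ^ mu ι = Real.exp (-2 * dd D A)
  circle : Circ ι u
  abelian : HasAbelianRoot K 2 u

/-- the real embeddings of the place `𝔭` -/
noncomputable def RR (ι : K →+* ℂ) : Finset (K →+* ℝ) := by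
  classical
  exact Finset.univ.filter fun σ => Complex.ofRealHom.comp σ = ι

theorem mem_RR (ι : K →+* ℂ) (σ : K →+* ℝ) : σ ∈ RR ι ↔ Complex.ofRealHom.comp σ = ι := by
  unfold RR
  simp

theorem card_RR (ι : K →+* ℂ) : 1 ≤ (RR ι).card + InfinitePlace.nrComplexPlaces K := by
  by_cases h : ComplexEmbedding.IsReal ι
  · have h1 : h.embedding ∈ RR ι := by
      rw [mem_RR]
      ext x
      exact h.coe_embedding_apply x
    have h2 := Finset.card_pos.2 ⟨_, h1⟩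
    omega
  · have h1 : InfinitePlace.IsComplex (InfinitePlace.mk ι) :=
      InfinitePlace.isComplex_mk_iff.2 h
    have h2 : 0 < InfinitePlace.nrComplexPlaces K := by
      classical
      unfold InfinitePlace.nrComplexPlaces
      exact Fintype.card_pos_iff.2 ⟨⟨_, h1⟩⟩
    omega

theorem classR (D : Datum K ι σ₂) : IsClassMapR D.𝔪 (RR ι) D.c :=
  ⟨D.isClassMap.mul, fun x hx0 hx1 hx2 => D.isClassMap.ray x hx0 hx1 fun σ hσ => hx2 σ (by rwa [mem_RR])⟩

theorem dd_eq (D : Datum K ι σ₂) : (∀ A, D.Z A 0 = 0) ∧ ∀ A, deriv (D.Z A) 0 = (dd D A : ℂ) := by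
  have hγ : Real.pi / 2 < Real.pi := by linarith [Real.pi_pos]
  have hone := fun A => one_place D.ne_top D.ne_bot (classR D) (card_RR ι)
    (⟨D.isPartialZeta.sum, D.isPartialZeta.analytic, D.isPartialZeta.mero⟩ : IsPZ D.𝔪 D.c D.Z) hγ A
  refine ⟨fun A => (hone A).1, fun A => ?_⟩
  apply Complex.ext
  · rw [Complex.ofReal_re]
    rfl
  · rw [Complex.ofReal_im]
    exact (hone A).2.1

theorem real_iff (D : Datum K ι σ₂) : ComplexEmbedding.IsReal D.τ ↔ ComplexEmbedding.IsReal ι := by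
  constructor
  · intro h
    rw [← D.above]
    ext x
    have h2 := congrArg (fun f : D.H →+* ℂ => f (algebraMap K D.H x)) h
    simpa [ComplexEmbedding.conjugate_coe_eq] using h2
  · exact D.split

theorem logAbs_eq (D : Datum K ι σ₂) (x : D.H) : logAbs D.τ x = mu ι * Real.log ‖D.τ x‖ := by
  unfold logAbs mu
  rw [real_iff D]
  split_ifs <;> norm_num

theorem value_iff (D : Datum K ι σ₂) (hW : Units.torsionOrder D.H = 2) (u : (𝓞 D.H)ˣ) (g : D.G) :
    (((logAbs D.τ (D.art g ((u : 𝓞 D.H) : D.H)) : ℝ) : ℂ) = -((Units.torsionOrder D.H : ℕ) : ℂ) * deriv (D.Z g) 0) ↔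
      ‖D.τ (D.art g ((u : 𝓞 D.H) : D.H))‖ ^ mu ι = Real.exp (-2 * dd D g) := by
  have hpos : 0 < ‖D.τ (D.art g ((u : 𝓞 D.H) : D.H))‖ := by
    have h2 : ((u : 𝓞 D.H) : D.H) ≠ 0 := by simp
    rw [norm_pos_iff, _root_.map_ne_zero]
    exact (map_ne_zero_iff _ (D.art g).injective).2 h2
  rw [hW, (dd_eq D).2, logAbs_eq]
  have e1 : (-((2 : ℕ) : ℂ) * (dd D g : ℂ)) = ((-2 * dd D g : ℝ) : ℂ) := by push_cast; ring
  rw [e1, Complex.ofReal_inj, ← Real.log_pow]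
  constructor
  · intro h
    rw [← h, Real.exp_log (pow_pos hpos _)]
  · intro h
    rw [h, Real.log_exp]

/-- `x` is a unit -/
def IsUn {H : Type} [Field H] (x : H) : Prop := ∃ U : (𝓞 H)ˣ, ((U : 𝓞 H) : H) = x

theorem IsUn.ne {H : Type} [Field H] {x : H} (h : IsUn x) : x ≠ 0 := by
  obtain ⟨U, rfl⟩ := h
  simp

theorem IsUn.mul {H : Type} [Field H] {x y : H} (hx : IsUn x) (hy : IsUn y) : IsUn (x * y) := by
  obtain ⟨U, rfl⟩ := hx
  obtain ⟨V, rfl⟩ := hy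
  exact ⟨U * V, by simp⟩

theorem IsUn.one {H : Type} [Field H] : IsUn (1 : H) := ⟨1, by simp⟩

theorem IsUn.inv {H : Type} [Field H] {x : H} (hx : IsUn x) : IsUn x⁻¹ := by
  obtain ⟨U, rfl⟩ := hx
  refine ⟨U⁻¹, ?_⟩
  refine (inv_eq_of_mul_eq_one_right ?_).symm
  rw [← map_mul, ← Units.val_mul, mul_inv_cancel, Units.val_one, map_one]

theorem IsUn.map {H : Type} [Field H] {x : H} (hx : IsUn x) {H' : Type} [Field H'] (f : H →+* H') : IsUn (f x) := by
  obtain ⟨U, rfl⟩ := hx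
  exact ⟨Units.map (RingOfIntegers.mapRingHom f : 𝓞 H →* 𝓞 H') U, rfl⟩

theorem IsUn.of_sq {H : Type} [Field H] [NumberField H] {x : H} (hx : IsUn (x ^ 2)) : IsUn x := by
  obtain ⟨U, hU⟩ := hx
  have hx0 : x ≠ 0 := by
    rintro rfl
    rw [zero_pow two_ne_zero] at hU
    have h2 : ((U : 𝓞 H) : H) ≠ 0 := by simp
    exact h2 hU
  refine mk_unit hx0 (IsIntegral.of_pow two_pos ?_) (IsIntegral.of_pow two_pos ?_)
  · rw [← hU]
    exact (U : 𝓞 H).isIntegral_coe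
  · rw [inv_pow, ← hU]
    exact unit_inv_integral U

/-- two units with the same absolute values agree up to the sign -/
theorem same_abs (D : Datum K ι σ₂) (hpm : PM D.H) {x y : D.H} (hx : IsUn x) (hy : IsUn y) (hcx : Circ ι x)
    (hcy : Circ ι y) (h : ∀ A, ‖D.τ (D.art A x)‖ ^ mu ι = ‖D.τ (D.art A y)‖ ^ mu ι) : x = y ∨ x = -y := by
  have hy0 := hy.ne
  obtain ⟨U, rfl⟩ := hx
  obtain ⟨V, rfl⟩ := hy
  obtain ⟨n, hn, hn2⟩ := root_of_unity D.art D.above hcx hcy fun A =>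
    (pow_left_inj₀ (norm_nonneg _) (norm_nonneg _) (mu_pos ι).ne').1 (h A)
  have h1 : (((U : 𝓞 D.H) : D.H) / ((V : 𝓞 D.H) : D.H)) ^ n = 1 := by
    rw [div_pow, hn2, div_self (pow_ne_zero n hy0)]
  rcases hpm _ n hn h1 with h2 | h2
  · left
    exact (div_eq_one_iff_eq hy0).1 h2
  · right
    rw [div_eq_iff hy0] at h2
    rw [h2]
    ring

theorem art_one (D : Datum K ι σ₂) (x : D.H) : D.art 1 x = x := by
  rw [map_one]
  rfl

theorem art_mul (D : Datum K ι σ₂) (A B : D.G) (x : D.H) : D.art (A * B) x = D.art A (D.art B x) := by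
  rw [map_mul]
  rfl

theorem circ_art (D : Datum K ι σ₂) (A : D.G) {x : D.H} (hx : Circ ι x) : Circ ι (D.art A x) := by
  intro φ h1 h2
  have e : (φ.comp ((D.art A : D.H ≃ₐ[K] D.H) : D.H →+* D.H)).comp (algebraMap K D.H) = φ.comp (algebraMap K D.H) := by
    ext a
    simp
  exact hx (φ.comp ((D.art A : D.H ≃ₐ[K] D.H) : D.H →+* D.H)) (by rw [e]; exact h1) (by rw [e]; exact h2)

theorem circ_mul {H : Type} [Field H] [Algebra K H] {x y : H} (hx : Circ ι x) (hy : Circ ι y) : Circ ι (x * y) := by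
  intro φ h1 h2
  rw [map_mul, norm_mul, hx φ h1 h2, hy φ h1 h2, one_mul]

theorem circ_div {H : Type} [Field H] [Algebra K H] {x y : H} (hx : Circ ι x) (hy : Circ ι y) : Circ ι (x / y) := by
  intro φ h1 h2
  rw [map_div₀, norm_div, hx φ h1 h2, hy φ h1 h2, div_one]

theorem circ_sq {H : Type} [Field H] [Algebra K H] {x : H} (hx : Circ ι (x ^ 2)) : Circ ι x := by
  intro φ h1 h2
  have h3 := hx φ h1 h2
  rw [map_pow, norm_pow] at h3
  exact (pow_eq_one_iff_of_nonneg (norm_nonneg _) two_ne_zero).1 h3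

theorem circ_one {H : Type} [Field H] [Algebra K H] : Circ ι (1 : H) := by
  intro φ _ _
  rw [map_one, norm_one]

theorem isU_of (D : Datum K ι σ₂) (hW : Units.torsionOrder D.H = 2) (h : D.Stark) : ∃ u : (𝓞 D.H)ˣ, IsU D ((u : 𝓞 D.H) : D.H) := by
  obtain ⟨ε, hε⟩ := h
  refine ⟨ε, fun A => (value_iff D hW ε A).1 (hε.value A), hε.circle, ?_⟩
  have h1 := hε.abelian
  rwa [hW] at h1

theorem of_isU (D : Datum K ι σ₂) (hW : Units.torsionOrder D.H = 2) (u : (𝓞 D.H)ˣ) (hu : IsU D ((u : 𝓞 D.H) : D.H)) :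
    D.Stark := by
  refine ⟨u, fun A => (value_iff D hW u A).2 (hu.val A), hu.circle, ?_⟩
  rw [hW]
  exact hu.abelian

/-- **one prime** -/
theorem layer_step {D D' : Datum K ι σ₂} (L : Layer D D') [DecidableEq D.G]
    {u : (𝓞 D'.H)ˣ} (hu : IsU D' ((u : 𝓞 D'.H) : D'.H)) :
    ∃ w : (𝓞 D.H)ˣ, L.emb ((w : 𝓞 D.H) : D.H) = nrm D'.art L.π ((u : 𝓞 D'.H) : D'.H) ∧
      (∀ A, ‖D.τ (D.art A ((w : 𝓞 D.H) : D.H))‖ ^ mu ι = Real.exp (-2 * (dd D A - dd D (A * (D.c L.v.asIdeal)⁻¹)))) ∧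
      Circ ι ((w : 𝓞 D.H) : D.H) := by
  let _ : Algebra D.H D'.H := L.emb.toRingHom.toAlgebra
  have _ : IsScalarTower K D.H D'.H := IsScalarTower.of_algebraMap_eq' (L.emb.comp_algebraMap.symm)
  have hmap : ∀ x, algebraMap D.H D'.H x = L.emb x := fun _ => rfl
  obtain ⟨w, hw1, hw2, hw3⟩ := norm_unit (τ := D.τ) (τ' := D'.τ) D.art D'.art L.surjective L.restrict (by
      ext x
      exact L.above x) u hu.circle
  refine ⟨w, hw1, fun A => ?_, hw2⟩
  have hZ : IsPZ D.𝔪 D.c D.Z := ⟨D.isPartialZeta.sum, D.isPartialZeta.analytic, D.isPartialZeta.mero⟩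
  have hZ' : IsPZ (D.𝔪 * L.v.asIdeal) D'.c D'.Z := by
    rw [← L.modulus]
    exact ⟨D'.isPartialZeta.sum, D'.isPartialZeta.analytic, D'.isPartialZeta.mero⟩
  have hc' : Pool.Agent.X287.ST.IsClassMap (D.𝔪 * L.v.asIdeal) D'.c := by
    rw [← L.modulus]
    exact (classR D').toClass
  have hsum := euler_deriv D.ne_top (classR D).toClass hZ (dd_eq D).1 L.prime hc' L.π
    (fun I hI => L.classes I (by rw [L.modulus]; exact hI)) hZ' A
  have hsum2 : ∑ g' ∈ Finset.univ.filter (fun g' => L.π g' = A), dd D' g' =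
      dd D A - dd D (A * (D.c L.v.asIdeal)⁻¹) := by
    have h2 := congrArg Complex.re hsum
    rw [Complex.re_sum, Complex.sub_re] at h2
    exact h2
  rw [hw3 A, ← Finset.prod_pow, Finset.prod_congr rfl fun g' _ => hu.val g', ← Real.exp_sum, ← Finset.mul_sum, hsum2]

theorem card_ker {G G' : Type} [CommGroup G] [Fintype G] [DecidableEq G] [CommGroup G'] [Fintype G'] (π : G' →* G) :
    (Finset.univ.filter (fun κ => π κ = 1)).card = Nat.card π.ker := by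
  rw [← Fintype.card_subtype, ← Nat.card_eq_fintype_card]
  exact Nat.card_congr (Equiv.refl _)

/-- the square root in the upper field -/
theorem upper_root {D D' : Datum K ι σ₂} (L : Layer D D') [DecidableEq D.G] (he : Even (Nat.card L.π.ker))
    {u : D'.H} (hu0 : u ≠ 0) (hu : IsU D' u) : ∃ b : D'.H, b ^ 2 = nrm D'.art L.π u := by
  obtain ⟨M, _, _, _, _, _, _, α, hcomm, hα⟩ := hu.abelian
  exact nrm_square D'.art (by rw [card_ker]; exact he) hu0 hcomm hα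

theorem tau_inj (D : Datum K ι σ₂) {x y : D.H} (h : D.τ x = D.τ y) : x = y := D.τ.injective h

theorem incl_eq {D D₁ D₂ D₁₂ : Datum K ι σ₂} (S : Square D D₁ D₂ D₁₂) (x : D.H) :
    S.M₁.emb (S.L₁.emb x) = S.M₂.emb (S.L₂.emb x) := by
  refine tau_inj D₁₂ ?_
  rw [S.M₁.above, S.L₁.above, S.M₂.above, S.L₂.above]

theorem proj_eq {D D₁ D₂ D₁₂ : Datum K ι σ₂} (S : Square D D₁ D₂ D₁₂) (k : D₁₂.G) :
    S.L₁.π (S.M₁.π k) = S.L₂.π (S.M₂.π k) := by
  apply D.art.injective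
  ext x
  have h1 := congrArg (D₁₂.art k) (incl_eq S x)
  rw [S.M₁.restrict, S.L₁.restrict, S.M₂.restrict, S.L₂.restrict, ← incl_eq S] at h1
  exact S.L₁.emb.toRingHom.injective (S.M₁.emb.toRingHom.injective h1)

theorem even_up₁ {D D₁ D₂ D₁₂ : Datum K ι σ₂} (S : Square D D₁ D₂ D₁₂) : Even (Nat.card S.M₁.π.ker) := by
  have h1 : Nat.card S.L₂.π.ker ∣ Nat.card S.M₁.π.ker := by
    let f : S.M₁.π.ker →* S.L₂.π.ker := (S.M₂.π.comp S.M₁.π.ker.subtype).codRestrict S.L₂.π.ker (fun k => by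
      rw [MonoidHom.mem_ker]
      show S.L₂.π (S.M₂.π (k : D₁₂.G)) = 1
      rw [← proj_eq S, MonoidHom.mem_ker.1 k.2, map_one])
    refine Subgroup.card_dvd_of_surjective f ?_
    rintro ⟨j, hj⟩
    obtain ⟨k, hk1, hk2⟩ := S.fibre 1 j (by rw [map_one, MonoidHom.mem_ker.1 hj])
    exact ⟨⟨k, MonoidHom.mem_ker.2 hk1⟩, Subtype.ext hk2⟩
  exact S.even₂.trans_dvd h1

theorem even_up₂ {D D₁ D₂ D₁₂ : Datum K ι σ₂} (S : Square D D₁ D₂ D₁₂) : Even (Nat.card S.M₂.π.ker) := by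
  have h1 : Nat.card S.L₁.π.ker ∣ Nat.card S.M₂.π.ker := by
    let f : S.M₂.π.ker →* S.L₁.π.ker := (S.M₁.π.comp S.M₂.π.ker.subtype).codRestrict S.L₁.π.ker (fun k => by
      rw [MonoidHom.mem_ker]
      show S.L₁.π (S.M₁.π (k : D₁₂.G)) = 1
      rw [proj_eq S, MonoidHom.mem_ker.1 k.2, map_one])
    refine Subgroup.card_dvd_of_surjective f ?_
    rintro ⟨j, hj⟩
    obtain ⟨k, hk1, hk2⟩ := S.fibre j 1 (by rw [map_one, MonoidHom.mem_ker.1 hj])
    exact ⟨⟨k, MonoidHom.mem_ker.2 hk2⟩, Subtype.ext hk1⟩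
  exact S.even₁.trans_dvd h1

/-- a square root of the unit with the values `-2 ζ'(0, A) + 2 ζ'(0, A g⁻¹)` -/
structure IsB (D : Datum K ι σ₂) (g : D.G) (b : D.H) : Prop where
  unit : IsUn b
  circ : Circ ι b
  val : ∀ A, ‖D.τ (D.art A (b ^ 2))‖ ^ mu ι = Real.exp (-2 * (dd D A - dd D (A * g⁻¹)))

/-- the square roots in `H` -/
theorem base_root {D D₁ D₂ D₁₂ : Datum K ι σ₂} (S : Square D D₁ D₂ D₁₂) (hpm : PM D₁₂.H)
    (hcl : D.c S.L₁.v.asIdeal = D.c S.L₂.v.asIdeal) {u₁ : (𝓞 D₁.H)ˣ} (hu₁ : IsU D₁ ((u₁ : 𝓞 D₁.H) : D₁.H))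
    {u₂ : (𝓞 D₂.H)ˣ} (hu₂ : IsU D₂ ((u₂ : 𝓞 D₂.H) : D₂.H)) : ∃ b : D.H, IsB D (D.c S.L₁.v.asIdeal) b := by
  classical
  obtain ⟨w₁, hw₁1, hw₁2, hw₁3⟩ := layer_step S.L₁ hu₁
  obtain ⟨w₂, hw₂1, hw₂2, hw₂3⟩ := layer_step S.L₂ hu₂
  obtain ⟨b₁, hb₁⟩ := upper_root S.L₁ S.even₁ (by simp) hu₁
  obtain ⟨b₂, hb₂⟩ := upper_root S.L₂ S.even₂ (by simp) hu₂
  have hpmD : PM D.H := hpm.of_hom (S.M₁.emb.toRingHom.comp S.L₁.emb.toRingHom)
  have hw₂0 : ((w₂ : 𝓞 D.H) : D.H) ≠ 0 := by simp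
  have hb₂0 : b₂ ≠ 0 := by
    rintro rfl
    rw [zero_pow two_ne_zero, ← hw₂1] at hb₂
    exact hw₂0 (S.L₂.emb.toRingHom.injective (by rw [map_zero]; exact hb₂.symm))
  have hww : ((w₁ : 𝓞 D.H) : D.H) = ((w₂ : 𝓞 D.H) : D.H) := by
    rcases same_abs D hpmD ⟨w₁, rfl⟩ ⟨w₂, rfl⟩ hw₁3 hw₂3 (fun A => by rw [hw₁2, hw₂2, hcl]) with h | h
    · exact h
    · exfalso
      refine hpm.sq_ne (x := S.M₁.emb b₁) (y := S.M₂.emb b₂) ?_ ?_
      · exact (map_ne_zero_iff _ S.M₂.emb.toRingHom.injective).2 hb₂0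
      · rw [← map_pow, hb₁, ← hw₁1, h, map_neg, map_neg, incl_eq S, hw₂1, ← hb₂, map_pow]
  let _ : Algebra D.H D₁.H := S.L₁.emb.toRingHom.toAlgebra
  have _ : IsScalarTower K D.H D₁.H := IsScalarTower.of_algebraMap_eq' (S.L₁.emb.comp_algebraMap.symm)
  let _ : Algebra D.H D₂.H := S.L₂.emb.toRingHom.toAlgebra
  have _ : IsScalarTower K D.H D₂.H := IsScalarTower.of_algebraMap_eq' (S.L₂.emb.comp_algebraMap.symm)
  obtain ⟨b, hb⟩ := root_down D.art D₁.art D₂.art D₁₂.art S.M₁.emb S.M₂.emb S.L₁.restrict S.M₁.restrict S.M₂.restrict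
    S.fibre (incl_eq S) (w := ((w₁ : 𝓞 D.H) : D.H)) (b₁ := b₁) (b₂ := b₂)
    (by rw [hb₁]; exact hw₁1.symm) (by rw [hb₂, hww]; exact hw₂1.symm)
  have hb2 : b ^ 2 = ((w₁ : 𝓞 D.H) : D.H) := by
    apply S.L₁.emb.toRingHom.injective
    show S.L₁.emb (b ^ 2) = S.L₁.emb ((w₁ : 𝓞 D.H) : D.H)
    rw [map_pow, hw₁1, ← hb₁]
    congr 1
  refine ⟨b, IsUn.of_sq ⟨w₁, hb2.symm⟩, circ_sq (by rw [hb2]; exact hw₁3), fun A => ?_⟩
  rw [hb2]
  exact hw₁2 A

/-- half of the commutation relation -/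
theorem half_comm {D D₁ D₁₂ : Datum K ι σ₂} (L : Layer D D₁) (M : Layer D₁ D₁₂) (hpm : PM D₁₂.H)
    [DecidableEq D.G] [DecidableEq D₁.G]
    (hev : Even (Nat.card L.π.ker)) (hev' : Even (Nat.card M.π.ker)) {u₁ : (𝓞 D₁.H)ˣ}
    (hu₁ : IsU D₁ ((u₁ : 𝓞 D₁.H) : D₁.H)) {u : (𝓞 D₁₂.H)ˣ} (hu : IsU D₁₂ ((u : 𝓞 D₁₂.H) : D₁₂.H)) {b : D.H}
    (hb : IsB D (D.c L.v.asIdeal) b) :
    ∃ a : D₁.H, (M.emb a) ^ 2 = nrm D₁₂.art M.π ((u : 𝓞 D₁₂.H) : D₁₂.H) ∧
      L.emb (b / D.art (D.c M.v.asIdeal)⁻¹ b) = nrm D₁.art L.π a := by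
  obtain ⟨w₁, hw₁1, hw₁2, hw₁3⟩ := layer_step L hu₁
  obtain ⟨w, hw1, hw2, hw3⟩ := layer_step M hu
  have hpm₁ : PM D₁.H := hpm.of_hom M.emb.toRingHom
  have hpmD : PM D.H := hpm₁.of_hom L.emb.toRingHom
  obtain ⟨b', hb'⟩ := upper_root L hev (by simp) hu₁
  have hw₁0 : ((w₁ : 𝓞 D.H) : D.H) ≠ 0 := by simp
  have hb'0 : b' ≠ 0 := by
    rintro rfl
    rw [zero_pow two_ne_zero, ← hw₁1] at hb'
    exact hw₁0 (L.emb.toRingHom.injective (by rw [map_zero]; exact hb'.symm))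
  have hcb2 : Circ ι (b ^ 2) := by
    rw [pow_two]
    exact circ_mul hb.circ hb.circ
  have hub2 : IsUn (b ^ 2) := by
    rw [pow_two]
    exact hb.unit.mul hb.unit
  have hbw : b ^ 2 = ((w₁ : 𝓞 D.H) : D.H) := by
    rcases same_abs D hpmD hub2 ⟨w₁, rfl⟩ hcb2 hw₁3 (fun A => by rw [hb.val, hw₁2]) with h | h
    · exact h
    · exfalso
      refine hpm₁.sq_ne (x := L.emb b) (y := b') hb'0 ?_
      rw [← map_pow, h, map_neg, hw₁1, hb']
  obtain ⟨F, _, _, _, _, _, _, α, hcomm, hα⟩ := hu₁.abelian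
  have hu0 : ((u₁ : 𝓞 D₁.H) : D₁.H) ≠ 0 := by simp
  obtain ⟨a, ha1, ha2⟩ := half_norm D₁.art (π := L.π) (by rw [card_ker]; exact hev) hu0 hcomm hα
    (b := L.emb b) (by rw [← map_pow, hbw, hw₁1]) (D₁.c M.v.asIdeal)⁻¹
  have hua : IsUn (a ^ 2) := by
    rw [ha1, div_eq_mul_inv]
    have h1 : IsUn ((u₁ : 𝓞 D₁.H) : D₁.H) := ⟨u₁, rfl⟩
    exact h1.mul (h1.map ((D₁.art (D₁.c M.v.asIdeal)⁻¹ : D₁.H ≃ₐ[K] D₁.H) : D₁.H →+* D₁.H)).inv
  have hca : Circ ι (a ^ 2) := by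
    rw [ha1]
    exact circ_div hu₁.circle (circ_art D₁ _ hu₁.circle)
  have ha0 : a ≠ 0 := fun h => hua.ne (by rw [h, zero_pow two_ne_zero])
  refine ⟨a, ?_, ?_⟩
  · rcases same_abs D₁ hpm₁ hua ⟨w, rfl⟩ hca hw3 (fun A => by
      rw [hw2, ha1, map_div₀, map_div₀, norm_div, div_pow, ← art_mul, hu₁.val, hu₁.val, ← Real.exp_sub]
      congr 1
      ring) with h | h
    · rw [← map_pow, h, hw1]
    · exfalso
      obtain ⟨b'', hb''⟩ := upper_root M hev' (by simp) hu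
      refine hpm.sq_ne (x := b'') (y := M.emb a) ((map_ne_zero_iff _ M.emb.toRingHom.injective).2 ha0) ?_
      rw [← map_pow, h, map_neg, neg_neg, hw1, hb'']
  · have h5 : L.π (D₁.c M.v.asIdeal)⁻¹ = (D.c M.v.asIdeal)⁻¹ := by
      rw [map_inv, L.classes _ M.prime]
    rw [← ha2, map_div₀, L.restrict, h5]

/-- **the commutation relation** for the square roots in `H` -/
theorem comm_rel {D D₁ D₂ D₁₂ : Datum K ι σ₂} (S : Square D D₁ D₂ D₁₂) (hpm : PM D₁₂.H)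
    {u₁ : (𝓞 D₁.H)ˣ} (hu₁ : IsU D₁ ((u₁ : 𝓞 D₁.H) : D₁.H))
    {u₂ : (𝓞 D₂.H)ˣ} (hu₂ : IsU D₂ ((u₂ : 𝓞 D₂.H) : D₂.H))
    {u : (𝓞 D₁₂.H)ˣ} (hu : IsU D₁₂ ((u : 𝓞 D₁₂.H) : D₁₂.H)) {b₁ b₂ : D.H}
    (hb₁ : IsB D (D.c S.L₁.v.asIdeal) b₁) (hb₂ : IsB D (D.c S.L₂.v.asIdeal) b₂) :
    b₁ / D.art (D.c S.L₂.v.asIdeal)⁻¹ b₁ = b₂ / D.art (D.c S.L₁.v.asIdeal)⁻¹ b₂ := by
  classical
  obtain ⟨a₁, ha₁, hn₁⟩ := half_comm S.L₁ S.M₁ hpm S.even₁ (even_up₁ S) hu₁ hu hb₁
  obtain ⟨a₂, ha₂, hn₂⟩ := half_comm S.L₂ S.M₂ hpm S.even₂ (even_up₂ S) hu₂ hu hb₂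
  rw [S.prime₂] at hn₁
  rw [S.prime₁] at hn₂
  obtain ⟨F, _, _, _, _, _, _, α, hcomm, hα⟩ := hu.abelian
  have he₁ : Even (Nat.card S.L₁.π.ker) := S.even₁
  have he₂ : Even (Nat.card S.L₂.π.ker) := S.even₂
  rw [← card_ker S.L₁.π] at he₁
  rw [← card_ker S.L₂.π] at he₂
  have h1 := two_norms D₁.art D₂.art D₁₂.art S.M₁.emb S.M₂.emb (p₁ := S.L₁.π) (p₂ := S.L₂.π) (π₁ := S.M₁.π)
    (π₂ := S.M₂.π) (proj_eq S) S.M₁.restrict S.M₂.restrict S.fibre he₁ he₂ hcomm hα ha₁ ha₂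
  rw [← hn₁, ← hn₂, ← incl_eq S] at h1
  exact S.L₁.emb.toRingHom.injective (S.M₁.emb.toRingHom.injective h1)

/-- the roots of unity in the four fields -/
theorem square_pm {D D₁ D₂ D₁₂ : Datum K ι σ₂} (S : Square D D₁ D₂ D₁₂) : PM D₁₂.H := by
  rcases S.roots with h | h
  · exact PM.of_real (D₁₂.split h)
  · exact (torsionOrder_iff _).1 h

end aux

open Pool.Agent.X287.ST in
/-- **The rank one abelian Stark conjecture for archimedean `𝔭`: from larger sets `S` to smaller ones.** -/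
theorem result (K : Type) [Field K] [NumberField K] (ι : K →+* ℂ) (σ₂ : K →+* ℝ) (hσ : Complex.ofRealHom.comp σ₂ ≠ ι)
    (D : Datum K ι σ₂)
    (hyp : ∀ g h : D.G, ∃ (D₁ D₂ D₁₂ : Datum K ι σ₂) (S : Square D D₁ D₂ D₁₂),
      D.c S.L₁.v.asIdeal = g ∧ D.c S.L₂.v.asIdeal = h ∧ D₁.Stark ∧ D₂.Stark ∧ D₁₂.Stark) :
    D.Stark := by
  classical
  -- the square roots
  have hroot : ∀ g : D.G, ∃ b : D.H, IsB D g b := by
    intro g
    obtain ⟨D₁, D₂, D₁₂, S, h1, h2, h3, h4, -⟩ := hyp g g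
    have hpm := square_pm S
    have hpm₁ : PM D₁.H := hpm.of_hom S.M₁.emb.toRingHom
    have hpm₂ : PM D₂.H := hpm.of_hom S.M₂.emb.toRingHom
    obtain ⟨u₁, hu₁⟩ := isU_of D₁ ((torsionOrder_iff _).2 hpm₁) h3
    obtain ⟨u₂, hu₂⟩ := isU_of D₂ ((torsionOrder_iff _).2 hpm₂) h4
    have h5 := base_root S hpm (h1.trans h2.symm) hu₁ hu₂
    rwa [h1] at h5
  choose b hb using hroot
  have hcomm : ∀ g h, b g / D.art h⁻¹ (b g) = b h / D.art g⁻¹ (b h) := by
    intro g h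
    obtain ⟨D₁, D₂, D₁₂, S, h1, h2, h3, h4, h5⟩ := hyp g h
    have hpm := square_pm S
    have hpm₁ : PM D₁.H := hpm.of_hom S.M₁.emb.toRingHom
    have hpm₂ : PM D₂.H := hpm.of_hom S.M₂.emb.toRingHom
    obtain ⟨u₁, hu₁⟩ := isU_of D₁ ((torsionOrder_iff _).2 hpm₁) h3
    obtain ⟨u₂, hu₂⟩ := isU_of D₂ ((torsionOrder_iff _).2 hpm₂) h4
    obtain ⟨u, hu⟩ := isU_of D₁₂ ((torsionOrder_iff _).2 hpm) h5
    have h6 := comm_rel S hpm hu₁ hu₂ hu (b₁ := b g) (b₂ := b h) (by rw [h1]; exact hb g) (by rw [h2]; exact hb h)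
    rwa [h1, h2] at h6
  have hpmD : PM D.H := by
    obtain ⟨D₁, D₂, D₁₂, S, -⟩ := hyp 1 1
    exact (square_pm S).of_hom (S.M₁.emb.toRingHom.comp S.L₁.emb.toRingHom)
  have hb0 : ∀ g, b g ≠ 0 := fun g => (hb g).unit.ne
  -- the complex conjugation
  obtain ⟨y, hy0, hy1, hy2, hy3⟩ := exists_sign_mod D.ne_bot σ₂
  have hZ : IsPZ D.𝔪 D.c D.Z := ⟨D.isPartialZeta.sum, D.isPartialZeta.analytic, D.isPartialZeta.mero⟩
  obtain ⟨hρ2, hsign⟩ := real_sign (R := RR ι) (by rwa [mem_RR]) (card_RR ι) D.ne_bot D.ne_top (classR D) hZ hy0 hy1 hy2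
    (fun σ h1 _ => hy3 σ h1)
  have hconj := D.conj y ⟨hy0, hy1, hy2, fun σ h1 _ => hy3 σ h1⟩
  set ρ : D.G := D.c (Ideal.span {y}) with hρ
  have hρinv : ρ⁻¹ = ρ := by
    rw [inv_eq_iff_mul_eq_one]
    exact hρ2
  have hdρ : ∀ A, dd D (A * ρ) = -dd D A := by
    intro A
    have h1 := hsign A
    rw [(dd_eq D).2, (dd_eq D).2, ← Complex.ofReal_add] at h1
    have h2 : dd D A + dd D (A * ρ) = 0 := by exact_mod_cast h1
    linarith
  -- an embedding above `σ₂`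
  obtain ⟨φ, hφ⟩ : ∃ φ : D.H →+* ℂ, φ.comp (algebraMap K D.H) = Complex.ofRealHom.comp σ₂ := by
    let _ : Algebra K ℂ := (Complex.ofRealHom.comp σ₂).toAlgebra
    have _ : Algebra.IsAlgebraic K D.H := Algebra.IsAlgebraic.of_finite K D.H
    let φ : D.H →ₐ[K] ℂ := IsAlgClosed.lift
    refine ⟨φ, ?_⟩
    ext a
    exact φ.commutes a
  -- `b g` and the complex conjugation
  have hbρ : ∀ g, b g * D.art ρ (b g) = 1 := by
    intro g
    have hu1 : IsUn (b g * D.art ρ (b g)) :=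
      (hb g).unit.mul ((hb g).unit.map ((D.art ρ : D.H ≃ₐ[K] D.H) : D.H →+* D.H))
    have hc1 : Circ ι (b g * D.art ρ (b g)) := circ_mul (hb g).circ (circ_art D ρ (hb g).circ)
    have h1 : (b g * D.art ρ (b g)) ^ 2 = 1 ∨ (b g * D.art ρ (b g)) ^ 2 = -1 := by
      refine same_abs D hpmD (by rw [pow_two]; exact hu1.mul hu1) IsUn.one (by rw [pow_two]; exact circ_mul hc1 hc1)
        circ_one fun A => ?_
      have h2 := (hb g).val A
      have h3 := (hb g).val (A * ρ)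
      rw [art_mul] at h3
      rw [mul_pow, ← map_pow (D.art ρ), map_mul, map_mul, norm_mul, mul_pow, h2, h3, ← Real.exp_add, map_one, map_one,
        norm_one, one_pow, Real.exp_eq_one_iff]
      have h5 : dd D (A * ρ * g⁻¹) = -dd D (A * g⁻¹) := by
        rw [mul_right_comm, hdρ]
      rw [hdρ, h5]
      ring
    have h2 : b g * D.art ρ (b g) = 1 ∨ b g * D.art ρ (b g) = -1 := by
      refine hpmD _ 4 (by norm_num) ?_
      have e : (b g * D.art ρ (b g)) ^ 4 = ((b g * D.art ρ (b g)) ^ 2) ^ 2 := by ring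
      rw [e]
      rcases h1 with h | h <;> rw [h] <;> norm_num
    rcases h2 with h2 | h2
    · exact h2
    · exfalso
      have h3 := congrArg φ h2
      rw [map_mul, hconj φ hφ, map_neg, map_one, Complex.mul_conj] at h3
      have h4 := Complex.normSq_nonneg (φ (b g))
      have h5 : Complex.normSq (φ (b g)) = -1 := by exact_mod_cast h3
      linarith
  -- the unit
  have hbε : ∀ g, b g ^ 2 = b ρ / D.art g⁻¹ (b ρ) := by
    intro g
    have h3 := hcomm g ρ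
    rw [hρinv] at h3
    rw [← h3, eq_div_iff ((map_ne_zero_iff _ (D.art ρ).injective).2 (hb0 g)), pow_two, mul_assoc, hbρ, mul_one]
  have hval : ∀ A, ‖D.τ (D.art A (b ρ))‖ ^ mu ι = Real.exp (-2 * dd D A) := by
    intro A
    have h1 := (hb ρ).val A
    rw [map_pow, map_pow, norm_pow, ← pow_mul, mul_comm 2, pow_mul, hρinv, hdρ] at h1
    have h2 : (‖D.τ (D.art A (b ρ))‖ ^ mu ι) ^ 2 = (Real.exp (-2 * dd D A)) ^ 2 := by
      rw [h1, ← Real.exp_nat_mul]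
      congr 1
      push_cast
      ring
    exact (pow_left_inj₀ (by positivity) (Real.exp_pos _).le two_ne_zero).1 h2
  obtain ⟨U, hU⟩ := (hb ρ).unit
  refine of_isU D ((torsionOrder_iff _).2 hpmD) U ?_
  rw [hU]
  refine ⟨hval, (hb ρ).circ, ?_⟩
  refine kummer_abelian D.art (hb0 ρ) (fun g => (b g⁻¹)⁻¹) (fun g => ?_) (fun g h => ?_)
  · have h1 := hbε g⁻¹
    rw [inv_inv] at h1
    have h2 : D.art g (b ρ) ≠ 0 := (map_ne_zero_iff _ (D.art g).injective).2 (hb0 ρ)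
    have h3 := hb0 ρ
    rw [inv_pow, h1]
    field_simp
  · have h1 := hcomm g⁻¹ h⁻¹
    rw [inv_inv, inv_inv] at h1
    have h2 : D.art h (b g⁻¹) ≠ 0 := (map_ne_zero_iff _ (D.art h).injective).2 (hb0 _)
    have h3 : D.art g (b h⁻¹) ≠ 0 := (map_ne_zero_iff _ (D.art g).injective).2 (hb0 _)
    rw [div_eq_div_iff h2 h3] at h1
    show (b g⁻¹)⁻¹ * D.art g (b h⁻¹)⁻¹ = (b h⁻¹)⁻¹ * D.art h (b g⁻¹)⁻¹
    rw [map_inv₀, map_inv₀, ← mul_inv, ← mul_inv, h1]

end Pool.Agent.Results.MP_ca56d1_nt.LargerSets
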