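import Pool.Agent.X242.DR4

/-!
# The rank one abelian Stark conjecture and absolutely convergent sums over ideals

Let `H/K` be a finite abelian extension of number fields with group `G`, and let `S`, the totally
split place `v` in `S`, the place `w` of `H` over `v`, `W`, `U^T_{S,H}` and the partial zeta
functions `ζ_S(g, s)` be as in the conjecture. For a fixed angle `γ > π/2` put

`Σ_g(T) = ∑_𝔞 sin (γ log N(𝔞) / T) / Γ(1 + log N(𝔞) / T)`, `T > 0`,

where `𝔞` runs through the nonzero ideals prime to `S` with Artin symbol `g`; this sum is absolutely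
convergent. Then `T Σ_g(T) = -γ ζ_S'(g, 0) + O(1/T)`. So the conjecture for `H/K`, `S`, `v` is
equivalent to a statement on sums over ideals, in which no zeta function appears:
there is `ε` in `U^T_{S,H}` with `H(ε^{1/W})/K` abelian such that
`T Σ_g(T) → (γ / W) log |g(ε)|_w`, for all `g` in `G`.

Definitions in `Pool.Agent.X242.DR4`: `IsPartialZeta`, `sinTerm`, `cosTerm`, `sinSum`, `cosSum`.
-/

set_option autoImplicit false

namespace Pool.Agent.Results.MP_ca56d1_nt.SumsOverIdeals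

open Filter Topology NumberField IsDedekindDomain Pool.Agent.X242.DR

/-- The places of a number field: the archimedean places and the maximal ideals. -/
abbrev Place (F : Type) [Field F] [NumberField F] : Type :=
  InfinitePlace F ⊕ HeightOneSpectrum (𝓞 F)

/-- The normalised absolute value at a place: `|x|` at a real place, `|x|^2` at a complex place,
`N(𝔓)^{-ord_𝔓(x)}` at a finite place (`adicAbv`). -/
noncomputable def absV {F : Type} [Field F] [NumberField F] : Place F → F → ℝ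
  | .inl w, x => w x ^ w.mult
  | .inr 𝔓, x => NumberField.HeightOneSpectrum.adicAbv F 𝔓 x

section

variable {K H : Type} [Field K] [NumberField K] [Field H] [NumberField H] [Algebra K H]

/-- The place `Q` of `H` lies over the place `q` of `K`. -/
def LiesOver : Place H → Place K → Prop
  | .inl w, .inl v => w.comap (algebraMap K H) = v
  | .inr 𝔓, .inr 𝔭 => 𝔓.asIdeal.comap (algebraMap (𝓞 K) (𝓞 H)) = 𝔭.asIdeal
  | _, _ => False

/-- `S`, the place `v` in `S` and the place `w` of `H` over `v` are as in the conjecture: `S` has at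
least two elements and contains all archimedean places and all places which are ramified in `H`, and
`v` is totally split in `H` (the number of places of `H` over `v` is `[H : K]`). -/
structure IsData (S : Finset (Place K)) (v : Place K) (w : Place H) : Prop where
  card : 2 ≤ S.card
  arch : ∀ u : InfinitePlace K, Sum.inl u ∈ S
  ram : ∀ 𝔭 : HeightOneSpectrum (𝓞 K), Sum.inr 𝔭 ∉ S → ∀ 𝔓 : HeightOneSpectrum (𝓞 H),
    LiesOver (K := K) (H := H) (.inr 𝔓) (.inr 𝔭) →
      ¬ Ideal.map (algebraMap (𝓞 K) (𝓞 H)) 𝔭.asIdeal ≤ 𝔓.asIdeal ^ 2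
  mem : v ∈ S
  split : Nat.card {Q : Place H // LiesOver Q v} = Module.finrank K H
  above : LiesOver w v

/-- `𝔞` is a nonzero ideal which is prime to the finite places in `S`. -/
def PrimeTo (S : Finset (Place K)) (𝔞 : Ideal (𝓞 K)) : Prop :=
  𝔞 ≠ ⊥ ∧ ∀ 𝔭 : HeightOneSpectrum (𝓞 K), Sum.inr 𝔭 ∈ S → ¬ 𝔞 ≤ 𝔭.asIdeal

/-- `A` is the Artin map: `A (𝔞 𝔟) = A 𝔞 A 𝔟` for the ideals prime to `S`, and `A 𝔭` is, for every
prime `𝔭` outside `S`, the Frobenius automorphism at all primes `𝔓` of `H` over `𝔭`. -/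
structure IsArtinMap (S : Finset (Place K)) (A : Ideal (𝓞 K) → (H ≃ₐ[K] H)) : Prop where
  mul : ∀ 𝔞 𝔟 : Ideal (𝓞 K), PrimeTo S 𝔞 → PrimeTo S 𝔟 → A (𝔞 * 𝔟) = A 𝔞 * A 𝔟
  frob : ∀ 𝔭 : HeightOneSpectrum (𝓞 K), Sum.inr 𝔭 ∉ S → ∀ 𝔓 : HeightOneSpectrum (𝓞 H),
    LiesOver (K := K) (H := H) (.inr 𝔓) (.inr 𝔭) → ∀ x y : 𝓞 H, (y : H) = A 𝔭.asIdeal (x : H) →
      y - x ^ (Ideal.absNorm 𝔭.asIdeal) ∈ 𝔓.asIdeal

/-- The nonzero ideals prime to `S` with the Artin symbol `g`. -/
def InClass (S : Finset (Place K)) (A : Ideal (𝓞 K) → (H ≃ₐ[K] H)) (g : H ≃ₐ[K] H)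
    (𝔞 : Ideal (𝓞 K)) : Prop := PrimeTo S 𝔞 ∧ A 𝔞 = g

variable (H) in
/-- The set `U^T_{S,H}`, `T = S \ {v}`. -/
def U (S : Finset (Place K)) (v : Place K) : Set H :=
  {α | α ≠ 0 ∧
    (∀ (Q : Place H) (q : Place K), LiesOver Q q → q ∉ S → absV Q α = 1) ∧
    (2 ≤ {q ∈ (S : Set (Place K)) | q ≠ v}.ncard → ∀ (Q : Place H) (q : Place K), LiesOver Q q →
      q ∈ S → q ≠ v → absV Q α = 1) ∧
    (∀ q : Place K, {q ∈ (S : Set (Place K)) | q ≠ v} = {q} → ∀ Q Q' : Place H, LiesOver Q q →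
      LiesOver Q' q → absV Q α = absV Q' α)}

variable (K) in
/-- `H(ε^{1/W})/K` is abelian: for a root `η` of `X ^ W = ε` in an algebraic closure the
extension `H(η)/K` is Galois with abelian Galois group. -/
def AbelianRoot (ε : H) : Prop :=
  ∃ η : AlgebraicClosure H, η ^ (NumberField.Units.torsionOrder H) = algebraMap H _ ε ∧
    IsGalois K (IntermediateField.adjoin K
      (Set.range (algebraMap H (AlgebraicClosure H)) ∪ {η})) ∧
    ∀ σ τ : (IntermediateField.adjoin K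
      (Set.range (algebraMap H (AlgebraicClosure H)) ∪ {η})) ≃ₐ[K] (IntermediateField.adjoin K
      (Set.range (algebraMap H (AlgebraicClosure H)) ∪ {η})), σ * τ = τ * σ

/-- `ε` satisfies `log |g(ε)|_w = -W ζ_S'(g, 0)` for all `g`. -/
def StarkIdentities (w : Place H) (ζ : (H ≃ₐ[K] H) → ℂ → ℂ) (ε : H) : Prop :=
  ∀ g : H ≃ₐ[K] H, ((Real.log (absV w (g ε)) : ℝ) : ℂ) =
    -(NumberField.Units.torsionOrder H : ℂ) * deriv (ζ g) 0

/-- `T Σ_g(T) → (γ / W) log |g(ε)|_w` for all `g`. -/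
def LimitIdentities (S : Finset (Place K)) (A : Ideal (𝓞 K) → (H ≃ₐ[K] H)) (w : Place H) (γ : ℝ)
    (ε : H) : Prop :=
  ∀ g : H ≃ₐ[K] H, Tendsto (fun T : ℝ => T * sinSum (InClass S A g) γ T) atTop
    (𝓝 (γ / (NumberField.Units.torsionOrder H : ℝ) * Real.log (absV w (g ε))))

end

/-- **The rank one abelian Stark conjecture and sums over ideals.** `H/K` is a finite abelian
extension of number fields, `S`, `v`, `w` are as in the conjecture, `A` is the Artin map and `ζ g`
is the partial zeta function of `g`, with its continuation (only the behaviour at the real points of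
`[0, 1]` matters). Let `γ > π/2`. -/
theorem result (K H : Type) [Field K] [NumberField K] [Field H] [NumberField H] [Algebra K H]
    [IsGalois K H] (_hab : ∀ σ τ : H ≃ₐ[K] H, σ * τ = τ * σ)
    (S : Finset (Place K)) (v : Place K) (w : Place H) (_hS : IsData S v w)
    (A : Ideal (𝓞 K) → (H ≃ₐ[K] H)) (_hA : IsArtinMap S A) (ζ : (H ≃ₐ[K] H) → ℂ → ℂ)
    (hζ : ∀ g, IsPartialZeta (InClass S A g) (ζ g)) (γ : ℝ) (hγ : Real.pi / 2 < γ) :
    -- absolute convergence
    (∀ (g : H ≃ₐ[K] H) (T : ℝ), 0 < T →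
      (Summable fun 𝔞 : {𝔞 : Ideal (𝓞 K) // InClass S A g 𝔞} => |sinTerm γ T 𝔞.1|) ∧
      Summable fun 𝔞 : {𝔞 : Ideal (𝓞 K) // InClass S A g 𝔞} => |cosTerm γ T 𝔞.1|) ∧
    -- 1. values and derivatives of the partial zeta functions at `0`
    (∀ g : H ≃ₐ[K] H, (ζ g 0).im = 0 ∧ (deriv (ζ g) 0).im = 0 ∧
      (fun T : ℝ => T * sinSum (InClass S A g) γ T + γ * (deriv (ζ g) 0).re) =O[atTop]
        (fun T : ℝ => 1 / T) ∧
      (fun T : ℝ => cosSum (InClass S A g) γ T -
        ((ζ g 0).re - Real.eulerMascheroniConstant * (deriv (ζ g) 0).re / T)) =O[atTop]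
        (fun T : ℝ => 1 / T ^ 2)) ∧
    -- 2. the identities
    (∀ ε : H, StarkIdentities w ζ ε ↔ LimitIdentities S A w γ ε) ∧
    (∀ ε : H, StarkIdentities w ζ ε → ∀ g : H ≃ₐ[K] H, (fun T : ℝ =>
      (NumberField.Units.torsionOrder H : ℝ) / γ * (T * sinSum (InClass S A g) γ T) -
        Real.log (absV w (g ε))) =O[atTop] (fun T : ℝ => 1 / T)) ∧
    -- 3. the conjecture
    ((∃ ε ∈ U H S v, StarkIdentities w ζ ε ∧ AbelianRoot K ε) ↔
      ∃ ε ∈ U H S v, LimitIdentities S A w γ ε ∧ AbelianRoot K ε) := by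
  have hP : ∀ (g : H ≃ₐ[K] H) (𝔞 : Ideal (𝓞 K)), InClass S A g 𝔞 → 𝔞 ≠ ⊥ :=
    fun g 𝔞 h => h.1.1
  have hW : (NumberField.Units.torsionOrder H : ℝ) ≠ 0 := by
    exact_mod_cast NumberField.Units.torsionOrder_ne_zero H
  have hγ0 : γ ≠ 0 := by
    have := Real.pi_pos
    intro h0
    rw [h0] at hγ
    linarith
  have key : ∀ (ε : H) (g : H ≃ₐ[K] H), ((Real.log (absV w (g ε)) : ℝ) : ℂ) =
      -(NumberField.Units.torsionOrder H : ℂ) * deriv (ζ g) 0 ↔
      deriv (ζ g) 0 = ((-(Real.log (absV w (g ε)) /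
        (NumberField.Units.torsionOrder H : ℝ)) : ℝ) : ℂ) := by
    intro ε g
    have hWc : (NumberField.Units.torsionOrder H : ℂ) ≠ 0 := by exact_mod_cast hW
    push_cast
    constructor
    · intro h
      rw [h]
      field_simp
    · intro h
      rw [h]
      field_simp
  have hiff : ∀ ε : H, StarkIdentities w ζ ε ↔ LimitIdentities S A w γ ε := by
    intro ε
    refine forall_congr' fun g => ?_
    rw [key ε g, (hζ g).deriv_iff (hP g) hγ]
    have e1 : -(γ * -(Real.log (absV w (g ε)) / (NumberField.Units.torsionOrder H : ℝ))) =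
        γ / (NumberField.Units.torsionOrder H : ℝ) * Real.log (absV w (g ε)) := by ring
    rw [e1]
  refine ⟨fun g T hT => ((hζ g).main (hP g) hγ).1 T hT, fun g => ?_, hiff, fun ε hε g => ?_, ?_⟩
  · obtain ⟨-, h1, h2, h3, -⟩ := (hζ g).main (hP g) hγ
    exact ⟨h1, h2, ((hζ g).deriv_limit (hP g) hγ).2, h3⟩
  · have h1 := ((hζ g).deriv_limit (hP g) hγ).2
    have h2 := (key ε g).1 (hε g)
    have h3 := h1.const_mul_left ((NumberField.Units.torsionOrder H : ℝ) / γ)
    refine h3.congr_left fun T => ?_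
    rw [h2, Complex.ofReal_re]
    field_simp
    ring
  · constructor
    · rintro ⟨ε, hε, h1, h2⟩
      exact ⟨ε, hε, (hiff ε).1 h1, h2⟩
    · rintro ⟨ε, hε, h1, h2⟩
      exact ⟨ε, hε, (hiff ε).2 h1, h2⟩

end Pool.Agent.Results.MP_ca56d1_nt.SumsOverIdeals
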