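import Pool.Agent.X27.NR.Count

/-!
# The rank one abelian Stark conjecture for Galois groups with two non-cyclic Sylow subgroups

Let `H / K` be a finite abelian extension of number fields with group `G`. The conjecture of Stark in the form of
Tate, for `H` and for its subfields `H^D ⊇ K` and the same sets of places, only involves the following data:
the group `U = U^T_{S,H}`, the absolute value `v` at the place `𝔓`, and the numbers `z(g) = ζ_S'(g, 0)`; for `H^D` the
partial zeta function of the class `g D` is the sum of the `ζ_S(g e, s)`, `e ∈ D`. (For the subfields: the absolute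
values of the elements of `H^D` at the place below `𝔓` are the same, since `𝔭` splits completely in `H`, and
`U^T_{S,H^D} = U^T_{S,H} ∩ H^D`.)

Theorem. For every such extension of number fields, subgroup `U`, homomorphism `v` and function `z`:
* If the Galois group `G / D` of `H^D / K` contains a subgroup `E / D` isomorphic to `C_q × C_q` (that is: its Sylow
  `q`-subgroup is not cyclic), and the conjecture holds for the subfields `H^{D'}`, `D < D' ≤ E`, then it
  holds for `H^D` with `q ζ'` in place of `ζ'`: the `q`-th power of the Stark unit of `H^D` exists.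
* If the Sylow `q`-subgroups of `G / D` are not cyclic for two primes `q`, and the conjecture holds for all
  proper subfields of `H^D` (which contain `K`) then it holds for `H^D`.
* So if the conjecture holds for all the subfields `H^D` whose Galois group over `K` has at most one non-cyclic Sylow
  subgroup then it holds for all subfields, and for `H`.

Proof. In `ℤ[E / D]` the sum of the norm elements of the `q + 1` subgroups of order `q` is `q + N_{E/D}`. So a product
of powers of Stark units of subfields has the absolute values of the `q`-th power of the Stark unit.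
The elements `u` of `H^D` for which `H^D(u^{1/W}) / K` is abelian form a group, and
`H^D(ε^{1/W}) = H^D(ε'^{1/W'})` for `ε = ε'^{W/W'}`.
-/

set_option autoImplicit false

open Finset

namespace Pool.Agent.Results.MP_ca56d1_nt.TwoNoncyclicSylows

open Pool.Agent.X27.NR (IsSquare between relation mem_between)

section
variable {K : Type} [Field K]

/-- The roots of unity of a field `F`. -/
def mu (F : IntermediateField K (AlgebraicClosure K)) : Subgroup (AlgebraicClosure K)ˣ where
  carrier := {u | (u : AlgebraicClosure K) ∈ F ∧ IsOfFinOrder u}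
  mul_mem' := by
    rintro a b ⟨h1, h2⟩ ⟨h3, h4⟩
    exact ⟨by rw [Units.val_mul]; exact mul_mem h1 h3, h2.mul h4⟩
  one_mem' := ⟨by rw [Units.val_one]; exact one_mem F, IsOfFinOrder.one⟩
  inv_mem' := by
    rintro a ⟨h1, h2⟩
    exact ⟨by rw [Units.val_inv_eq_inv_val]; exact inv_mem h1, h2.inv⟩

/-- The number of roots of unity of a field. -/
noncomputable def W (F : IntermediateField K (AlgebraicClosure K)) : ℕ := Nat.card (mu F)

variable (H : IntermediateField K (AlgebraicClosure K))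

/-- The subfield `H^D`. -/
noncomputable def fld (D : Subgroup (H ≃ₐ[K] H)) : IntermediateField K (AlgebraicClosure K) :=
  IntermediateField.lift (IntermediateField.fixedField D)

/-- The action of the Galois group on `Hˣ`. -/
noncomputable def act (g : H ≃ₐ[K] H) : Hˣ →* Hˣ := Units.map (g : H →* H)

variable [Fintype (H ≃ₐ[K] H)]

open Classical in
/-- The sum of `z(g e)`, `e ∈ D`. -/
noncomputable def push (D : Subgroup (H ≃ₐ[K] H)) (z : (H ≃ₐ[K] H) → ℝ) (g : H ≃ₐ[K] H) : ℝ :=
  ∑ e ∈ univ.filter (fun e : H ≃ₐ[K] H => e ∈ D), z (g * e)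

/-- There is an `S`-unit `ε` of `H^D` with `log |g ε| = - W f(g)` for all `g`, such that `H^D(ε^{1/W}) / K` is
abelian. -/
def Realised (U : Subgroup Hˣ) (v : Hˣ →* ℝ) (D : Subgroup (H ≃ₐ[K] H)) (f : (H ≃ₐ[K] H) → ℝ) :
    Prop :=
  ∃ ε : Hˣ, (∀ d ∈ D, act H d ε = ε) ∧ ε ∈ U ∧
    (∀ g : H ≃ₐ[K] H, Real.log (v (act H g ε)) = -(W (fld H D) : ℝ) * f g) ∧
    ∀ y : AlgebraicClosure K, y ^ W (fld H D) = ((ε : H) : AlgebraicClosure K) →
      IsAbelianGalois K ↥(fld H D ⊔ IntermediateField.adjoin K {y})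

/-- The conjecture of Stark and Tate for the subfield `H^D`. -/
def StarkAt (U : Subgroup Hˣ) (v : Hˣ →* ℝ) (z : (H ≃ₐ[K] H) → ℝ) (D : Subgroup (H ≃ₐ[K] H)) : Prop :=
  Realised H U v D (push H D z)

/-- The Galois group `G / D` of `H^D / K` contains a group isomorphic to `C_q × C_q`. -/
def NoncyclicAt {H : IntermediateField K (AlgebraicClosure K)} (D : Subgroup (H ≃ₐ[K] H)) (q : ℕ) :
    Prop :=
  q.Prime ∧ ∃ E : Subgroup (H ≃ₐ[K] H), D ≤ E ∧ Nat.card E = q ^ 2 * Nat.card D ∧ ∀ x ∈ E, x ^ q ∈ D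

end

section
variable {K : Type} [Field K] [NumberField K]

/-- The maximal abelian extension, as the set of the elements on which the Galois group acts through a
commutative quotient. -/
noncomputable def ab (K : Type) [Field K] : IntermediateField K (AlgebraicClosure K) where
  carrier := {x | ∀ σ τ : AlgebraicClosure K ≃ₐ[K] AlgebraicClosure K, σ (τ x) = τ (σ x)}
  mul_mem' := by
    intro a b ha hb σ τ
    rw [map_mul, map_mul, map_mul, map_mul, ha, hb]
  add_mem' := by
    intro a b ha hb σ τ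
    rw [map_add, map_add, map_add, map_add, ha, hb]
  algebraMap_mem' := by
    intro r σ τ
    rw [AlgEquiv.commutes, AlgEquiv.commutes, AlgEquiv.commutes]
  inv_mem' := by
    intro a ha σ τ
    rw [map_inv₀, map_inv₀, map_inv₀, map_inv₀, ha]

theorem ab_iff (M : IntermediateField K (AlgebraicClosure K)) : IsAbelianGalois K M ↔ M ≤ ab K := by
  constructor
  · intro h x hx σ τ
    have h1 : ∀ ρ : AlgebraicClosure K ≃ₐ[K] AlgebraicClosure K, ∀ y : M,
        ρ y = ((ρ.restrictNormal M y : M) : AlgebraicClosure K) :=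
      fun ρ y => (AlgEquiv.restrictNormal_commutes ρ M y).symm
    have h2 := h1 τ ⟨x, hx⟩
    have h3 := h1 σ ⟨x, hx⟩
    simp only at h2 h3
    rw [h2, h3, h1, h1]
    congr 1
    have h4 : σ.restrictNormal M * τ.restrictNormal M = τ.restrictNormal M * σ.restrictNormal M :=
      h.toIsMulCommutative.is_comm.comm _ _
    exact congrArg (fun ρ : M ≃ₐ[K] M => ρ ⟨x, hx⟩) h4
  · intro h
    have hnorm : Normal K M := by
      rw [IntermediateField.normal_iff_forall_map_le']
      rintro σ _ ⟨x, hx, rfl⟩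
      have h1 : (σ x : AlgebraicClosure K) ∈ IntermediateField.fixedField M.fixingSubgroup := by
        rw [IntermediateField.mem_fixedField_iff]
        intro τ hτ
        have h2 : τ x = x := (IntermediateField.mem_fixingSubgroup_iff M τ).1 hτ x hx
        rw [h hx τ σ, h2]
      rw [InfiniteGalois.fixedField_fixingSubgroup] at h1
      exact h1
    have hgal : IsGalois K M := ⟨⟩
    refine { hgal with is_comm := ⟨fun f g => ?_⟩ }
    obtain ⟨σ, rfl⟩ := AlgEquiv.restrictNormalHom_surjective (AlgebraicClosure K) f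
    obtain ⟨τ, rfl⟩ := AlgEquiv.restrictNormalHom_surjective (AlgebraicClosure K) g
    rw [← map_mul, ← map_mul]
    ext x
    have h1 : ∀ ρ : AlgebraicClosure K ≃ₐ[K] AlgebraicClosure K,
        (((AlgEquiv.restrictNormalHom M ρ) x : M) : AlgebraicClosure K) = ρ x :=
      fun ρ => AlgEquiv.restrictNormal_commutes ρ M x
    rw [h1, h1]
    exact h x.2 σ τ

variable (H : IntermediateField K (AlgebraicClosure K)) [FiniteDimensional K H] [IsAbelianGalois K H]

theorem mem_fld {D : Subgroup (H ≃ₐ[K] H)} {x : AlgebraicClosure K} :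
    x ∈ fld H D ↔ ∃ hx : x ∈ H, ∀ d ∈ D, d ⟨x, hx⟩ = ⟨x, hx⟩ := by
  unfold fld
  constructor
  · intro h
    have hx : x ∈ H := IntermediateField.lift_le _ h
    exact ⟨hx, (IntermediateField.mem_fixedField_iff _ _).1 ((IntermediateField.mem_lift ⟨x, hx⟩).1 h)⟩
  · rintro ⟨hx, h⟩
    exact (IntermediateField.mem_lift ⟨x, hx⟩).2 ((IntermediateField.mem_fixedField_iff _ _).2 h)

theorem fld_anti {D D' : Subgroup (H ≃ₐ[K] H)} (h : D ≤ D') : fld H D' ≤ fld H D := by
  intro x hx
  rw [mem_fld] at hx ⊢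
  obtain ⟨h1, h2⟩ := hx
  exact ⟨h1, fun d hd => h2 d (h hd)⟩

theorem fld_le (D : Subgroup (H ≃ₐ[K] H)) : fld H D ≤ H := by
  intro x hx
  rw [mem_fld] at hx
  exact hx.1

theorem fld_ab (D : Subgroup (H ≃ₐ[K] H)) : fld H D ≤ ab K :=
  (fld_le H D).trans ((ab_iff H).1 inferInstance)

theorem finite_mu : Finite (mu H) := by
  have : NumberField H := NumberField.of_module_finite K H
  have h1 := NumberField.Embeddings.finite_of_norm_le H ℂ 1
  have h2 : Finite {x : H | IsIntegral ℤ x ∧ ∀ φ : H →+* ℂ, ‖φ x‖ ≤ 1} := h1.to_subtype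
  refine Finite.of_injective (β := {x : H | IsIntegral ℤ x ∧ ∀ φ : H →+* ℂ, ‖φ x‖ ≤ 1})
    (fun u => ⟨⟨(u.1 : AlgebraicClosure K), u.2.1⟩, ?_⟩) ?_
  · obtain ⟨n, hn, hu⟩ := isOfFinOrder_iff_pow_eq_one.1 u.2.2
    have hpow : (⟨(u.1 : AlgebraicClosure K), u.2.1⟩ : H) ^ n = 1 := by
      apply Subtype.ext
      have := congrArg (fun w : (AlgebraicClosure K)ˣ => (w : AlgebraicClosure K)) hu
      simpa using this
    refine ⟨⟨Polynomial.X ^ n - 1, Polynomial.monic_X_pow_sub_C 1 hn.ne', ?_⟩, fun φ => ?_⟩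
    · simp [hpow]
    · have h3 : φ (⟨(u.1 : AlgebraicClosure K), u.2.1⟩ : H) ^ n = 1 := by
        rw [← map_pow, hpow, map_one]
      exact (Complex.norm_eq_one_of_pow_eq_one h3 hn.ne').le
  · intro a b h
    apply Subtype.ext
    apply Units.ext
    have := congrArg (fun x => (x.1 : AlgebraicClosure K)) h
    exact this

theorem mu_mono {F F' : IntermediateField K (AlgebraicClosure K)} (h : F ≤ F') : mu F ≤ mu F' := by
  rintro u ⟨h1, h2⟩
  exact ⟨h h1, h2⟩

theorem finite_mu' (D : Subgroup (H ≃ₐ[K] H)) : Finite (mu (fld H D)) := by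
  have := finite_mu H
  exact Finite.of_injective _ (Subgroup.inclusion_injective (mu_mono (fld_le H D)))

theorem W_pos (D : Subgroup (H ≃ₐ[K] H)) : 0 < W (fld H D) := by
  have := finite_mu' H D
  exact Nat.card_pos

theorem W_dvd {D D' : Subgroup (H ≃ₐ[K] H)} (h : D ≤ D') : W (fld H D') ∣ W (fld H D) :=
  Subgroup.card_dvd_of_le (mu_mono (fld_anti H h))

/-- All `W`-th roots of unity are in `H^D`. -/
theorem root_mem (D : Subgroup (H ≃ₐ[K] H)) {t : AlgebraicClosure K} (ht : t ^ W (fld H D) = 1) :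
    t ∈ fld H D := by
  have hfin := finite_mu' H D
  have hW := W_pos H D
  have hne : NeZero (W (fld H D)) := ⟨hW.ne'⟩
  have hle : mu (fld H D) ≤ rootsOfUnity (W (fld H D)) (AlgebraicClosure K) := by
    intro u hu
    rw [mem_rootsOfUnity]
    have h1 : (⟨u, hu⟩ : mu (fld H D)) ^ W (fld H D) = 1 := pow_card_eq_one'
    exact congrArg Subtype.val h1
  have hcard : Nat.card (rootsOfUnity (W (fld H D)) (AlgebraicClosure K)) ≤ Nat.card (mu (fld H D)) :=
    card_rootsOfUnity _ _
  have heq := Subgroup.eq_of_le_of_card_ge hle hcard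
  have ht0 : t ≠ 0 := by
    rintro rfl
    rw [zero_pow hW.ne'] at ht
    exact zero_ne_one ht
  have h2 : Units.mk0 t ht0 ∈ rootsOfUnity (W (fld H D)) (AlgebraicClosure K) := by
    rw [mem_rootsOfUnity]
    apply Units.ext
    simpa using ht
  rw [← heq] at h2
  exact h2.1

theorem exists_root (n : ℕ) (hn : 0 < n) (x : AlgebraicClosure K) : ∃ y, y ^ n = x :=
  IsAlgClosed.exists_pow_nat_eq x hn

/-- abelian extensions and roots -/
theorem ab_sup_iff (D : Subgroup (H ≃ₐ[K] H)) (y : AlgebraicClosure K) :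
    IsAbelianGalois K ↥(fld H D ⊔ IntermediateField.adjoin K {y}) ↔ y ∈ ab K := by
  rw [ab_iff, sup_le_iff, IntermediateField.adjoin_simple_le_iff]
  exact ⟨fun h => h.2, fun h => ⟨fld_ab H D, h⟩⟩

/-- It is enough to consider one root. -/
theorem one_root (D : Subgroup (H ≃ₐ[K] H)) {x y : AlgebraicClosure K} (hx0 : x ≠ 0)
    (hxy : y ^ W (fld H D) = x ^ W (fld H D)) (hx : x ∈ ab K) : y ∈ ab K := by
  have h1 : (y / x) ^ W (fld H D) = 1 := by
    rw [div_pow, hxy, div_self (pow_ne_zero _ hx0)]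
  have h2 := fld_ab H D (root_mem H D h1)
  have h3 : y = y / x * x := by field_simp
  rw [h3]
  exact mul_mem h2 hx

variable (U : Subgroup Hˣ) (v : Hˣ →* ℝ)

theorem v_ne (u : Hˣ) : v u ≠ 0 := by
  intro h
  have h1 : v u * v u⁻¹ = 1 := by rw [← map_mul, mul_inv_cancel, map_one]
  rw [h, zero_mul] at h1
  exact zero_ne_one h1

theorem log_mul (a b : Hˣ) : Real.log (v (a * b)) = Real.log (v a) + Real.log (v b) := by
  rw [map_mul, Real.log_mul (v_ne H v a) (v_ne H v b)]

theorem log_one : Real.log (v 1) = 0 := by rw [map_one, Real.log_one]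

theorem log_inv (a : Hˣ) : Real.log (v a⁻¹) = -Real.log (v a) := by
  have h := log_mul H v a a⁻¹
  rw [mul_inv_cancel, log_one] at h
  linarith

theorem log_pow (a : Hˣ) (n : ℕ) : Real.log (v (a ^ n)) = n * Real.log (v a) := by
  rw [map_pow, Real.log_pow]

variable [Fintype (H ≃ₐ[K] H)]

theorem real_iff (D : Subgroup (H ≃ₐ[K] H)) (f : (H ≃ₐ[K] H) → ℝ) : Realised H U v D f ↔
    ∃ ε : Hˣ, (∀ d ∈ D, act H d ε = ε) ∧ ε ∈ U ∧
    (∀ g : H ≃ₐ[K] H, Real.log (v (act H g ε)) = -(W (fld H D) : ℝ) * f g) ∧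
    ∃ y : AlgebraicClosure K, y ^ W (fld H D) = ((ε : H) : AlgebraicClosure K) ∧ y ∈ ab K := by
  unfold Realised
  constructor
  · rintro ⟨ε, h1, h2, h3, h4⟩
    obtain ⟨y, hy⟩ := exists_root (W (fld H D)) (W_pos H D) ((ε : H) : AlgebraicClosure K)
    exact ⟨ε, h1, h2, h3, y, hy, (ab_sup_iff H D y).1 (h4 y hy)⟩
  · rintro ⟨ε, h1, h2, h3, x, hx, hxa⟩
    refine ⟨ε, h1, h2, h3, fun y hy => (ab_sup_iff H D y).2 ?_⟩
    refine one_root H D ?_ (hy.trans hx.symm) hxa
    rintro rfl
    rw [zero_pow (W_pos H D).ne'] at hx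
    have h5 : ((ε : H) : AlgebraicClosure K) ≠ 0 := by
      intro h
      exact ε.ne_zero (Subtype.ext h)
    exact h5 hx.symm

/-- The functions which are realised by units. -/
def realGroup (D : Subgroup (H ≃ₐ[K] H)) : AddSubgroup ((H ≃ₐ[K] H) → ℝ) where
  carrier := {f | Realised H U v D f}
  zero_mem' := by
    show Realised H U v D 0
    rw [real_iff]
    refine ⟨1, fun d _ => map_one _, one_mem U, fun g => ?_, 1, ?_, one_mem _⟩
    · rw [map_one, log_one, Pi.zero_apply, mul_zero]
    · rw [one_pow]; rfl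
  add_mem' := by
    intro f f' hf hf'
    change Realised H U v D f at hf
    change Realised H U v D f' at hf'
    show Realised H U v D (f + f')
    rw [real_iff] at hf hf' ⊢
    obtain ⟨ε, h1, h2, h3, y, h4, h5⟩ := hf
    obtain ⟨ε', h1', h2', h3', y', h4', h5'⟩ := hf'
    refine ⟨ε * ε', fun d hd => ?_, mul_mem h2 h2', fun g => ?_, y * y', ?_, mul_mem h5 h5'⟩
    · rw [map_mul, h1 d hd, h1' d hd]
    · rw [map_mul, log_mul, h3, h3', Pi.add_apply]; ring
    · rw [mul_pow, h4, h4']; rfl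
  neg_mem' := by
    intro f hf
    change Realised H U v D f at hf
    show Realised H U v D (-f)
    rw [real_iff] at hf ⊢
    obtain ⟨ε, h1, h2, h3, y, h4, h5⟩ := hf
    refine ⟨ε⁻¹, fun d hd => ?_, inv_mem h2, fun g => ?_, y⁻¹, ?_, inv_mem h5⟩
    · rw [map_inv, h1 d hd]
    · rw [map_inv, log_inv, h3, Pi.neg_apply]; ring
    · rw [inv_pow, h4]
      simp

theorem mem_realGroup {D : Subgroup (H ≃ₐ[K] H)} {f : (H ≃ₐ[K] H) → ℝ} :
    f ∈ realGroup H U v D ↔ Realised H U v D f := Iff.rfl

/-- from a subfield to the field -/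
theorem realGroup_mono {D D' : Subgroup (H ≃ₐ[K] H)} (h : D ≤ D') :
    realGroup H U v D' ≤ realGroup H U v D := by
  intro f hf
  rw [mem_realGroup, real_iff] at hf ⊢
  obtain ⟨ε, h1, h2, h3, y, h4, h5⟩ := hf
  obtain ⟨m, hm⟩ := W_dvd H h
  refine ⟨ε ^ m, fun d hd => ?_, pow_mem h2 m, fun g => ?_, y, ?_, h5⟩
  · rw [map_pow, h1 d (h hd)]
  · rw [map_pow, log_pow, h3, hm]
    push_cast
    ring
  · rw [hm, pow_mul, h4]
    simp

/-- the relation for the sums -/
theorem push_relation [Fintype (Subgroup (H ≃ₐ[K] H))] {D E : Subgroup (H ≃ₐ[K] H)} {q : ℕ}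
    (z : (H ≃ₐ[K] H) → ℝ)
    (hq : q.Prime) (hDE : D ≤ E) (hc : Nat.card E = q ^ 2 * Nat.card D) (hp : ∀ x ∈ E, x ^ q ∈ D)
    (h : ∀ D' : Subgroup (H ≃ₐ[K] H), D < D' → D' ≤ E → push H D' z ∈ realGroup H U v D') :
    q • push H D z ∈ realGroup H U v D := by
  let inst : CommGroup (H ≃ₐ[K] H) :=
    { (inferInstance : Group (H ≃ₐ[K] H)) with
      mul_comm := fun a b =>
        (‹IsAbelianGalois K H›.toIsMulCommutative.is_comm.comm a b : a * b = b * a) }
  have hsq : @IsSquare (H ≃ₐ[K] H) inst D E q := ⟨hq, hDE, hc, hp⟩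
  have hD0 : 0 < Nat.card D := Nat.card_pos
  have hlt : ∀ D' : Subgroup (H ≃ₐ[K] H), D ≤ D' → Nat.card D' ≠ Nat.card D → D < D' := by
    intro D' h1 h2
    refine lt_of_le_of_ne h1 ?_
    rintro rfl
    exact h2 rfl
  have key : q • push H D z + push H E z =
      ∑ D' ∈ @between (H ≃ₐ[K] H) inst _ D E q, push H D' z := by
    funext g
    rw [Pi.add_apply, Pi.smul_apply, Finset.sum_apply]
    exact (@relation (H ≃ₐ[K] H) inst _ _ ℝ _ _ D E q hsq (fun e => z (g * e))).symm
  have h2 : q • push H D z =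
      (∑ D' ∈ @between (H ≃ₐ[K] H) inst _ D E q, push H D' z) - push H E z := by
    rw [← key]; abel
  rw [h2]
  have hq2 : 2 ≤ q := hq.two_le
  refine sub_mem (sum_mem fun D' hD' => ?_) ?_
  · obtain ⟨h3, h4, h5⟩ := (@mem_between (H ≃ₐ[K] H) inst _ _ D E D' q).1 hD'
    refine realGroup_mono H U v h3 (h D' (hlt D' h3 ?_) h4)
    rw [h5]
    intro h6
    have h7 := Nat.mul_le_mul_right (Nat.card D) hq2
    omega
  · refine realGroup_mono H U v hDE (h E (hlt E hDE ?_) le_rfl)
    rw [hc]
    intro h6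
    have h7 := Nat.mul_le_mul_right (Nat.card D) (show 4 ≤ q ^ 2 by nlinarith)
    omega

end

/-- **The conjecture of Stark for groups with two non-cyclic Sylow subgroups.** -/
theorem result (K : Type) [Field K] [NumberField K] (H : IntermediateField K (AlgebraicClosure K))
    [FiniteDimensional K H] [IsAbelianGalois K H] [Fintype (H ≃ₐ[K] H)]
    (U : Subgroup Hˣ) (v : Hˣ →* ℝ) (z : (H ≃ₐ[K] H) → ℝ) :
    (∀ (D E : Subgroup (H ≃ₐ[K] H)) (q : ℕ), q.Prime → D ≤ E → Nat.card E = q ^ 2 * Nat.card D →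
      (∀ x ∈ E, x ^ q ∈ D) → (∀ D' : Subgroup (H ≃ₐ[K] H), D < D' → D' ≤ E → StarkAt H U v z D') →
      Realised H U v D (fun g => q * push H D z g)) ∧
    (∀ (D : Subgroup (H ≃ₐ[K] H)) (q q' : ℕ), q ≠ q' → NoncyclicAt D q → NoncyclicAt D q' →
      (∀ D' : Subgroup (H ≃ₐ[K] H), D < D' → StarkAt H U v z D') → StarkAt H U v z D) ∧
    ((∀ D : Subgroup (H ≃ₐ[K] H), (∀ q q' : ℕ, NoncyclicAt D q → NoncyclicAt D q' → q = q') →
      StarkAt H U v z D) → ∀ D : Subgroup (H ≃ₐ[K] H), StarkAt H U v z D) := by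
  have : Fintype (Subgroup (H ≃ₐ[K] H)) := Fintype.ofFinite _
  have part2 : ∀ (D : Subgroup (H ≃ₐ[K] H)) (q q' : ℕ), q ≠ q' → NoncyclicAt D q →
      NoncyclicAt D q' → (∀ D' : Subgroup (H ≃ₐ[K] H), D < D' → StarkAt H U v z D') →
      StarkAt H U v z D := by
    rintro D q q' hne ⟨hq, E, h1, h2, h3⟩ ⟨hq', E', h1', h2', h3'⟩ hs
    have a1 := push_relation H U v z hq h1 h2 h3 fun D' h4 _ => hs D' h4
    have a2 := push_relation H U v z hq' h1' h2' h3' fun D' h4 _ => hs D' h4
    have hcop : Nat.Coprime q q' := (Nat.coprime_primes hq hq').2 hne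
    have hbez := Nat.gcd_eq_gcd_ab q q'
    rw [hcop.gcd_eq_one] at hbez
    have e : push H D z = (Nat.gcdA q q') • (q • push H D z) + (Nat.gcdB q q') • (q' • push H D z) := by
      funext g
      rw [Pi.add_apply, Pi.smul_apply, Pi.smul_apply, Pi.smul_apply, Pi.smul_apply, nsmul_eq_mul,
        nsmul_eq_mul, zsmul_eq_mul, zsmul_eq_mul]
      have h4 : (1 : ℝ) = q * (Nat.gcdA q q' : ℝ) + q' * (Nat.gcdB q q' : ℝ) := by exact_mod_cast hbez
      linear_combination (push H D z g) * h4
    show push H D z ∈ realGroup H U v D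
    rw [e]
    exact add_mem (zsmul_mem a1 _) (zsmul_mem a2 _)
  refine ⟨?_, part2, ?_⟩
  · intro D E q hq h1 h2 h3 hs
    have a1 := push_relation H U v z hq h1 h2 h3 hs
    have e : (fun g => q * push H D z g) = q • push H D z := by
      funext g
      rw [Pi.smul_apply, nsmul_eq_mul]
    rw [e]
    exact a1
  · intro h
    have key : ∀ n : ℕ, ∀ D : Subgroup (H ≃ₐ[K] H),
        Nat.card (H ≃ₐ[K] H) - Nat.card D = n → StarkAt H U v z D := by
      intro n
      induction n using Nat.strong_induction_on with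
      | _ n ih =>
        intro D hD
        by_cases hc : ∀ q q' : ℕ, NoncyclicAt D q → NoncyclicAt D q' → q = q'
        · exact h D hc
        · push Not at hc
          obtain ⟨q, q', h1, h2, h3⟩ := hc
          refine part2 D q q' h3 h1 h2 fun D' hD' => ?_
          have h4 : Nat.card D < Nat.card D' := by
            have h5 : Nat.card D ≤ Nat.card D' := Nat.le_of_dvd Nat.card_pos (Subgroup.card_dvd_of_le hD'.le)
            rcases h5.lt_or_eq with h6 | h6
            · exact h6
            · exact absurd (Subgroup.eq_of_le_of_card_ge hD'.le h6.ge) hD'.ne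
          have h5 : Nat.card D' ≤ Nat.card (H ≃ₐ[K] H) :=
            Nat.le_of_dvd Nat.card_pos (Subgroup.card_subgroup_dvd_card D')
          exact ih (Nat.card (H ≃ₐ[K] H) - Nat.card D') (by omega) D' rfl
    exact fun D => key _ D rfl

end Pool.Agent.Results.MP_ca56d1_nt.TwoNoncyclicSylows
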